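import Pool.Agent.K1H7.LE.Energy

/-!
Balanced characters.
-/

set_option autoImplicit false

namespace Pool.Agent.K1H7.LE
open RC14 Pool.Agent.K1H7.EP Finset Equiv
open scoped InnerProductSpace ComplexConjugate

noncomputable section

variable {R n : ℕ}

/-- the indices on one side -/
def Ip (i0 : Fin R) (χ : AddChar (Ev R) ℂ) : Finset (Fin R) := by
  classical exact univ.filter fun i => χ (pe i0 i) = 1

/-- the indices on the other side -/
def Im (i0 : Fin R) (χ : AddChar (Ev R) ℂ) : Finset (Fin R) := by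
  classical exact univ.filter fun i => χ (pe i0 i) = -1

lemma mem_Ip (i0 : Fin R) (χ : AddChar (Ev R) ℂ) (i : Fin R) : i ∈ Ip i0 χ ↔ χ (pe i0 i) = 1 := by
  unfold Ip; simp

lemma mem_Im (i0 : Fin R) (χ : AddChar (Ev R) ℂ) (i : Fin R) :
    i ∈ Im i0 χ ↔ χ (pe i0 i) = -1 := by
  unfold Im; simp

lemma chi_pe_two (i0 : Fin R) (χ : AddChar (Ev R) ℂ) (i j : Fin R) :
    χ (pe i j) = χ (pe i0 i) * χ (pe i0 j) := by
  rw [chi_pe_mul χ i i0 j, pe_comm i i0]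

lemma chi_neg (i0 : Fin R) (χ : AddChar (Ev R) ℂ) (i j : Fin R) (hi : i ∈ Ip i0 χ)
    (hj : j ∈ Im i0 χ) : χ (pe i j) = -1 := by
  rw [chi_pe_two i0, (mem_Ip i0 χ i).1 hi, (mem_Im i0 χ j).1 hj, one_mul]

open Classical in
lemma chi_sq (i0 : Fin R) (χ : AddChar (Ev R) ℂ) (i j : Fin R) :
    ‖χ (pe i j) - 1‖ ^ 2 = 4 * ((if i ∈ Ip i0 χ then (1 : ℝ) else 0) *
      (if j ∈ Im i0 χ then (1 : ℝ) else 0) + (if i ∈ Im i0 χ then (1 : ℝ) else 0) *
      (if j ∈ Ip i0 χ then (1 : ℝ) else 0)) := by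
  have hne : (1 : ℂ) ≠ -1 := by norm_num
  have hne' : (-1 : ℂ) ≠ 1 := by norm_num
  rw [chi_pe_two i0]
  simp only [mem_Ip, mem_Im]
  rcases chi_pe χ i0 i with h1 | h1 <;> rcases chi_pe χ i0 j with h2 | h2 <;>
    simp only [h1, h2, if_true, if_neg hne, if_neg hne'] <;> norm_num

open Classical in
lemma chi_sum (i0 : Fin R) (χ : AddChar (Ev R) ℂ) :
    ∑ i, ∑ j, ‖χ (pe i j) - 1‖ ^ 2 = 8 * ((#(Ip i0 χ) : ℝ) * #(Im i0 χ)) := by
  have h1 : ∀ s : Finset (Fin R), ∑ i, (if i ∈ s then (1 : ℝ) else 0) = #s := by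
    intro s
    rw [Finset.sum_ite_mem, Finset.univ_inter, Finset.sum_const, nsmul_eq_mul, mul_one]
  calc ∑ i, ∑ j, ‖χ (pe i j) - 1‖ ^ 2
      = ∑ i, ∑ j, (4 * ((if i ∈ Ip i0 χ then (1 : ℝ) else 0) *
      (if j ∈ Im i0 χ then (1 : ℝ) else 0)) + 4 * ((if i ∈ Im i0 χ then (1 : ℝ) else 0) *
      (if j ∈ Ip i0 χ then (1 : ℝ) else 0))) := by
        refine Finset.sum_congr rfl fun i _ => Finset.sum_congr rfl fun j _ => ?_
        rw [chi_sq i0]; ring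
    _ = _ := by
        simp only [Finset.sum_add_distrib, ← Finset.mul_sum, ← Finset.sum_mul, h1]
        ring

section
variable {V : Type*} [NormedAddCommGroup V] [InnerProductSpace ℂ V]

/-- the total energy -/
lemma total (ρ : Alt n →* (V ≃ₗᵢ[ℂ] V)) (i0 : Fin R) (v : V) :
    ∑ i : Fin R, ∑ j : Fin R, ∑ J : Tup (R * 2) n, ‖ρ (ta J (pe i j)) v - v‖ ^ 2 =
      ∑ χ : AddChar (Ev R) ℂ, 8 * ((#(Ip i0 χ) : ℝ) * #(Im i0 χ)) *
        ∑ J : Tup (R * 2) n, ‖Es ρ (ta J) χ v‖ ^ 2 := by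
  calc _ = ∑ i : Fin R, ∑ j : Fin R, ∑ J : Tup (R * 2) n, ∑ χ : AddChar (Ev R) ℂ,
      ‖χ (pe i j) - 1‖ ^ 2 * ‖Es ρ (ta J) χ v‖ ^ 2 := by
        refine Finset.sum_congr rfl fun i _ => Finset.sum_congr rfl fun j _ =>
          Finset.sum_congr rfl fun J _ => ?_
        exact disp_formula ρ (ta J) (ta_add J) _ v
    _ = ∑ i : Fin R, ∑ j : Fin R, ∑ χ : AddChar (Ev R) ℂ,
      ‖χ (pe i j) - 1‖ ^ 2 * ∑ J : Tup (R * 2) n, ‖Es ρ (ta J) χ v‖ ^ 2 := by
        refine Finset.sum_congr rfl fun i _ => Finset.sum_congr rfl fun j _ => ?_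
        rw [Finset.sum_comm]
        refine Finset.sum_congr rfl fun χ _ => ?_
        rw [Finset.mul_sum]
    _ = ∑ i : Fin R, ∑ χ : AddChar (Ev R) ℂ, ∑ j : Fin R,
      ‖χ (pe i j) - 1‖ ^ 2 * ∑ J : Tup (R * 2) n, ‖Es ρ (ta J) χ v‖ ^ 2 := by
        refine Finset.sum_congr rfl fun i _ => ?_
        rw [Finset.sum_comm]
    _ = ∑ χ : AddChar (Ev R) ℂ, ∑ i : Fin R, ∑ j : Fin R,
      ‖χ (pe i j) - 1‖ ^ 2 * ∑ J : Tup (R * 2) n, ‖Es ρ (ta J) χ v‖ ^ 2 := by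
        rw [Finset.sum_comm]
    _ = _ := by
        refine Finset.sum_congr rfl fun χ _ => ?_
        rw [← chi_sum, Finset.sum_mul]
        refine Finset.sum_congr rfl fun i _ => ?_
        rw [Finset.sum_mul]

variable [FiniteDimensional ℂ V]

/-- existence of a balanced character with mass -/
theorem exists_bal (hn : 5 ≤ n) (ρ : Alt n →* (V ≃ₗᵢ[ℂ] V)) (hirr : Irr ρ ⊤) (t : ℕ)
    (hR : R * 2 ≤ n) (i0 : Fin R) (κ : ℝ) (u : V) (hu0 : u ≠ 0)
    (hu : κ * ‖u‖ ^ 2 * Fintype.card (Tup 3 n) ≤ ∑ s : Tup 3 n, ‖ρ (c3 s) u - u‖ ^ 2)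
    (ht : 32 * (t : ℝ) < (R - 1) * κ) :
    ∃ χ : AddChar (Ev R) ℂ, t ≤ #(Ip i0 χ) ∧ t ≤ #(Im i0 χ) ∧ ∃ c : ℝ, 0 < c ∧
      ∀ v : V, ∑ J : Tup (R * 2) n, ‖Es ρ (ta J) χ v‖ ^ 2 = c * ‖v‖ ^ 2 := by
  by_contra hcon
  push Not at hcon
  have hR1 : (1 : ℝ) ≤ R := by
    have := i0.pos
    exact_mod_cast this
  have hu1 : 0 < ‖u‖ ^ 2 := by positivity
  have hT : (0 : ℝ) < Fintype.card (Tup (R * 2) n) := by
    have : Nonempty (Tup (R * 2) n) := ⟨Fin.castLEEmb hR⟩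
    exact_mod_cast Fintype.card_pos
  have hT3 : (0 : ℝ) < Fintype.card (Tup 3 n) := by
    have : Nonempty (Tup 3 n) := ⟨Fin.castLEEmb (by omega)⟩
    exact_mod_cast Fintype.card_pos
  -- the upper bound
  have hup : ∑ i : Fin R, ∑ j : Fin R, ∑ J : Tup (R * 2) n, ‖ρ (ta J (pe i j)) u - u‖ ^ 2 ≤
      8 * (t * R) * (Fintype.card (Tup (R * 2) n) * ‖u‖ ^ 2) := by
    rw [total ρ i0]
    have e1 : ∀ χ : AddChar (Ev R) ℂ, 8 * ((#(Ip i0 χ) : ℝ) * #(Im i0 χ)) *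
        ∑ J : Tup (R * 2) n, ‖Es ρ (ta J) χ u‖ ^ 2 ≤
        8 * (t * R) * ∑ J : Tup (R * 2) n, ‖Es ρ (ta J) χ u‖ ^ 2 := by
      intro χ
      obtain ⟨c, hc⟩ := Es_scalar ρ hirr χ
      have h0 : 0 ≤ ∑ J : Tup (R * 2) n, ‖Es ρ (ta J) χ u‖ ^ 2 :=
        Finset.sum_nonneg fun _ _ => by positivity
      by_cases hc0 : 0 < c
      · have hb : ∀ s : Finset (Fin R), (#s : ℝ) ≤ R := by
          intro s
          have := Finset.card_le_univ s
          rw [Fintype.card_fin] at this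
          exact_mod_cast this
        apply mul_le_mul_of_nonneg_right _ h0
        by_cases h1 : t ≤ #(Ip i0 χ)
        · by_cases h2 : t ≤ #(Im i0 χ)
          · obtain ⟨v, hv⟩ := hcon χ h1 h2 c hc0
            exact absurd (hc v) hv
          · push Not at h2
            have e2 : (#(Im i0 χ) : ℝ) ≤ t := by exact_mod_cast h2.le
            have e3 := mul_le_mul (hb (Ip i0 χ)) e2 (by positivity) (by positivity)
            linarith
        · push Not at h1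
          have e2 : (#(Ip i0 χ) : ℝ) ≤ t := by exact_mod_cast h1.le
          have e3 := mul_le_mul e2 (hb (Im i0 χ)) (by positivity) (by positivity)
          linarith
      · have : ∑ J : Tup (R * 2) n, ‖Es ρ (ta J) χ u‖ ^ 2 = 0 := by
          apply le_antisymm _ h0
          rw [hc u]
          push Not at hc0
          nlinarith
        rw [this]; simp
    refine (Finset.sum_le_sum fun χ _ => e1 χ).trans ?_
    rw [← Finset.mul_sum]
    apply mul_le_mul_of_nonneg_left _ (by positivity)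
    rw [Finset.sum_comm]
    rw [Finset.sum_congr rfl fun J _ => Es_parseval ρ (ta J) u, Finset.sum_const,
      Finset.card_univ, nsmul_eq_mul]
  -- the lower bound
  obtain ⟨a4, ha4⟩ : ∃ a4, a4 = (∑ q : Tup 4 n, ‖ρ (d4 q) u - u‖ ^ 2) /
    Fintype.card (Tup 4 n) := ⟨_, rfl⟩
  have ha : κ * ‖u‖ ^ 2 ≤ 4 * a4 := by
    rw [ha4]
    refine le_trans ?_ (d4_energy hn ρ u)
    rw [le_div_iff₀ hT3]
    exact hu
  have ha0 : 0 ≤ a4 := by rw [ha4]; positivity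
  have hlow : (R : ℝ) * (R - 1) * (Fintype.card (Tup (R * 2) n) * a4) ≤
      ∑ i : Fin R, ∑ j : Fin R, ∑ J : Tup (R * 2) n, ‖ρ (ta J (pe i j)) u - u‖ ^ 2 := by
    have e1 : ∀ i : Fin R, ((R : ℝ) - 1) * (Fintype.card (Tup (R * 2) n) * a4) ≤
        ∑ j : Fin R, ∑ J : Tup (R * 2) n, ‖ρ (ta J (pe i j)) u - u‖ ^ 2 := by
      intro i
      have e2 : ∑ j ∈ univ.erase i, ∑ J : Tup (R * 2) n, ‖ρ (ta J (pe i j)) u - u‖ ^ 2 =
          ((R : ℝ) - 1) * (Fintype.card (Tup (R * 2) n) * a4) := by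
        rw [Finset.sum_congr rfl fun j hj => by
          rw [ta_energy hR ρ u i j (Finset.ne_of_mem_erase hj).symm, ← ha4]]
        rw [Finset.sum_const, nsmul_eq_mul, Finset.card_erase_of_mem (Finset.mem_univ i),
          Finset.card_univ, Fintype.card_fin, Nat.cast_sub i.pos, Nat.cast_one]
      rw [← e2]
      exact Finset.sum_le_sum_of_subset_of_nonneg (Finset.erase_subset _ _)
        fun _ _ _ => Finset.sum_nonneg fun _ _ => by positivity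
    calc _ = ∑ i : Fin R, ((R : ℝ) - 1) * (Fintype.card (Tup (R * 2) n) * a4) := by
          rw [Finset.sum_const, Finset.card_univ, Fintype.card_fin, nsmul_eq_mul]; ring
      _ ≤ _ := Finset.sum_le_sum fun i _ => e1 i
  have h1 := hlow.trans hup
  have h2 : ((R : ℝ) - 1) * a4 ≤ 8 * t * ‖u‖ ^ 2 := by
    have e1 : (R * Fintype.card (Tup (R * 2) n) : ℝ) * (((R : ℝ) - 1) * a4) ≤
        (R * Fintype.card (Tup (R * 2) n) : ℝ) * (8 * t * ‖u‖ ^ 2) := by linarith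
    exact le_of_mul_le_mul_left e1 (by positivity)
  have h3 : ((R : ℝ) - 1) * κ * ‖u‖ ^ 2 ≤ 32 * t * ‖u‖ ^ 2 := by
    have e1 : 0 ≤ (R : ℝ) - 1 := by linarith
    have e2 := mul_le_mul_of_nonneg_left ha e1
    linarith
  have h4 := le_of_mul_le_mul_right h3 hu1
  linarith

end

end

end Pool.Agent.K1H7.LE
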