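import Pool.Agent.K1H7.LE.Bal

/-!
Most tuples of pairs have a pair inside a large set.
-/

set_option autoImplicit false

namespace Pool.Agent.K1H7.LE
open RC14 Pool.Agent.K1H7.EP Finset Equiv

noncomputable section

variable {R n : ℕ}

open Classical in
/-- the number of tuples inside the range of `ψ` -/
lemma card_in {j m : ℕ} (ψ : Fin m ↪ Fin n) :
    #(univ.filter fun s : Tup j n => ∀ l, s l ∈ Set.range ψ) = m.descFactorial j := by
  have h1 : (univ.filter fun s : Tup j n => ∀ l, s l ∈ Set.range ψ) =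
      (univ : Finset (Tup j m)).image (fun u => u.trans ψ) := by
    ext s
    simp only [Finset.mem_filter, Finset.mem_univ, true_and, Finset.mem_image]
    constructor
    · intro h
      choose u hu using h
      refine ⟨⟨u, fun a b hab => s.injective ?_⟩, ?_⟩
      · rw [← hu a, ← hu b, hab]
      · ext1 a
        exact hu a
    · rintro ⟨u, rfl⟩ l
      exact ⟨u l, rfl⟩
  rw [h1, Finset.card_image_of_injective, Finset.card_univ, Fintype.card_embedding_eq,
    Fintype.card_fin, Fintype.card_fin]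
  intro u u' h
  ext1 a
  exact ψ.injective (DFunLike.congr_fun h a)

lemma card_tup (j : ℕ) : (Fintype.card (Tup j n)) = n.descFactorial j := by
  rw [Fintype.card_embedding_eq, Fintype.card_fin, Fintype.card_fin]

open Classical in
lemma avg_in {j m : ℕ} (ψ : Fin m ↪ Fin n) (e : Fin j ↪ Fin (R * 2)) (hR : R * 2 ≤ n) :
    (∑ J : Tup (R * 2) n, if ∀ l, J (e l) ∈ Set.range ψ then (1 : ℝ) else 0) =
      Fintype.card (Tup (R * 2) n) * ((m.descFactorial j : ℝ) / n.descFactorial j) := by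
  have h1 := HIGHCaux.avg e hR (fun s => if ∀ l, s l ∈ Set.range ψ then (1 : ℝ) else 0)
  have hc : (Fintype.card (Tup (R * 2) n) : ℝ) ≠ 0 := by
    have : Nonempty (Tup (R * 2) n) := ⟨Fin.castLEEmb hR⟩
    exact_mod_cast Fintype.card_ne_zero
  have h2 : (∑ s : Tup j n, if ∀ l, s l ∈ Set.range ψ then (1 : ℝ) else 0) =
      (m.descFactorial j : ℝ) := by
    rw [← card_in ψ, Finset.sum_ite, Finset.sum_const_zero, add_zero, Finset.sum_const,
      nsmul_eq_mul, mul_one]
  rw [h2, card_tup (n := n) j] at h1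
  rw [← h1]
  have h3 : (∑ J : Tup (R * 2) n, if ∀ l, J (e l) ∈ Set.range ψ then (1 : ℝ) else 0) =
    ∑ t : Tup (R * 2) n, if ∀ l, (e.trans t) l ∈ Set.range ψ then (1 : ℝ) else 0 := rfl
  rw [h3, mul_div_cancel₀ _ hc]

/-- the positions of a pair -/
def e2 (i : Fin R) : Fin 2 ↪ Fin (R * 2) :=
  ⟨fun b => finProdFinEquiv (i, b), fun a b h => by
    have := finProdFinEquiv.injective h
    exact congrArg Prod.snd this⟩

/-- the pair `i` lies in the range of `ψ` -/
def inr {m : ℕ} (ψ : Fin m ↪ Fin n) (J : Tup (R * 2) n) (i : Fin R) : Prop :=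
  ∀ b : ZMod 2, jm J (i, b) ∈ Set.range ψ

lemma inr_iff {m : ℕ} (ψ : Fin m ↪ Fin n) (J : Tup (R * 2) n) (i : Fin R) :
    inr ψ J i ↔ ∀ l, J (e2 i l) ∈ Set.range ψ := Iff.rfl

lemma inr_iff2 {m : ℕ} (ψ : Fin m ↪ Fin n) (J : Tup (R * 2) n) (i j : Fin R) (h : i ≠ j) :
    (inr ψ J i ∧ inr ψ J j) ↔ ∀ l, J (e4 i j h l) ∈ Set.range ψ := by
  constructor
  · rintro ⟨h1, h2⟩ l
    fin_cases l
    · exact h1 0
    · exact h1 1
    · exact h2 0
    · exact h2 1
  · intro h3
    constructor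
    · intro b
      have hb : b = 0 ∨ b = 1 := by revert b; decide
      rcases hb with rfl | rfl
      · exact h3 0
      · exact h3 1
    · intro b
      have hb : b = 0 ∨ b = 1 := by revert b; decide
      rcases hb with rfl | rfl
      · exact h3 2
      · exact h3 3

open Classical in
/-- **second moment** -/
theorem count {m : ℕ} (ψ : Fin m ↪ Fin n) (hR : R * 2 ≤ n) (hn : 4 ≤ n) (hm : 4 ≤ m)
    (I : Finset (Fin R))
    (hI : 3 * (n * (n - 1) : ℝ) ≤ #I * (m * (m - 1))) :
    4 * #(univ.filter fun J : Tup (R * 2) n => ¬ ∃ i ∈ I, inr ψ J i) ≤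
      Fintype.card (Tup (R * 2) n) := by
  obtain ⟨T, hTd⟩ : ∃ T : ℝ, T = Fintype.card (Tup (R * 2) n) := ⟨_, rfl⟩
  have hTp : 0 < T := by
    rw [hTd]
    have : Nonempty (Tup (R * 2) n) := ⟨Fin.castLEEmb hR⟩
    exact_mod_cast Fintype.card_pos
  have hmn : m ≤ n := by simpa using Fintype.card_le_of_embedding ψ
  have hmn' : (m : ℝ) ≤ n := by exact_mod_cast hmn
  have hm' : (4 : ℝ) ≤ m := by exact_mod_cast hm
  have hn' : (4 : ℝ) ≤ n := by exact_mod_cast hn
  obtain ⟨p, hp⟩ : ∃ p : ℝ, p = (m.descFactorial 2 : ℝ) / n.descFactorial 2 := ⟨_, rfl⟩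
  obtain ⟨q, hq⟩ : ∃ q : ℝ, q = (m.descFactorial 4 : ℝ) / n.descFactorial 4 := ⟨_, rfl⟩
  have hd2 : ∀ k : ℕ, 4 ≤ k → (k.descFactorial 2 : ℝ) = (k : ℝ) * (k - 1) := by
    intro k hk
    rw [Nat.descFactorial_succ, Nat.descFactorial_one, Nat.cast_mul, Nat.cast_sub (by omega)]
    push_cast; ring
  have hd4 : ∀ k : ℕ, 4 ≤ k → (k.descFactorial 4 : ℝ) = (k : ℝ) * (k - 1) * (k - 2) * (k - 3) := by
    intro k hk
    rw [Nat.descFactorial_succ, Nat.descFactorial_succ, Nat.cast_mul, Nat.cast_mul, hd2 k hk,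
      Nat.cast_sub (by omega), Nat.cast_sub (by omega)]
    push_cast; ring
  have hp0 : 0 < p := by
    rw [hp, hd2 m hm, hd2 n hn]
    apply div_pos <;> nlinarith
  have hqp : q ≤ p * p := by
    rw [hp, hq, hd2 m hm, hd2 n hn, hd4 m hm, hd4 n hn, div_mul_div_comm]
    rw [div_le_div_iff₀ (by
      apply mul_pos (mul_pos (mul_pos _ _) _) _ <;> linarith) (by
      apply mul_pos <;> apply mul_pos <;> linarith)]
    have e1 : ((m : ℝ) - 2) * n ≤ m * (n - 2) := by nlinarith
    have e2 : ((m : ℝ) - 3) * (n - 1) ≤ (m - 1) * (n - 3) := by nlinarith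
    have e3 : (((m : ℝ) - 2) * n) * (((m : ℝ) - 3) * (n - 1)) ≤
        (m * (n - 2)) * ((m - 1) * (n - 3)) := by
      apply mul_le_mul e1 e2
      · apply mul_nonneg <;> linarith
      · apply mul_nonneg <;> linarith
    have e4 : 0 ≤ ((m : ℝ) * (m - 1)) * (n * (n - 1)) := by
      apply mul_nonneg <;> apply mul_nonneg <;> linarith
    have e5 := mul_le_mul_of_nonneg_left e3 e4
    calc _ = ((m : ℝ) * (m - 1)) * (n * (n - 1)) * ((((m : ℝ) - 2) * n) * (((m : ℝ) - 3) * (n - 1))) := by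
          ring
      _ ≤ _ := e5
      _ = _ := by ring
  obtain ⟨X, hX⟩ : ∃ X : Tup (R * 2) n → ℝ, X = fun J => ∑ i ∈ I,
    if inr ψ J i then (1 : ℝ) else 0 := ⟨_, rfl⟩
  obtain ⟨a, ha⟩ : ∃ a : ℝ, a = #I * p := ⟨_, rfl⟩
  have ha3 : 3 ≤ a := by
    rw [ha, hp, hd2 m hm, hd2 n hn, mul_div_assoc', le_div_iff₀ (by
      apply mul_pos <;> linarith)]
    linarith
  have h1 : ∑ J, X J = T * a := by
    rw [hX]
    rw [Finset.sum_comm]
    have e1 : ∀ i ∈ I, ∑ J : Tup (R * 2) n, (if inr ψ J i then (1 : ℝ) else 0) = T * p := by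
      intro i _
      rw [hTd, hp, ← avg_in ψ (e2 i) hR]
      refine Finset.sum_congr rfl fun J _ => ?_
      simp only [inr_iff]
    rw [Finset.sum_congr rfl e1, Finset.sum_const, nsmul_eq_mul, ha]; ring
  have h2 : ∑ J, X J ^ 2 ≤ T * (a + a * a) := by
    rw [hX]
    have e1 : ∀ i ∈ I, ∀ i' ∈ I, ∑ J : Tup (R * 2) n, (if inr ψ J i then (1 : ℝ) else 0) *
        (if inr ψ J i' then (1 : ℝ) else 0) ≤ T * (p * p) + (if i = i' then T * p else 0) := by
      intro i _ i' _
      by_cases h : i = i'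
      · subst h
        rw [if_pos rfl]
        have e2 : ∑ J : Tup (R * 2) n, (if inr ψ J i then (1 : ℝ) else 0) *
            (if inr ψ J i then (1 : ℝ) else 0) = T * p := by
          rw [hTd, hp, ← avg_in ψ (e2 i) hR]
          refine Finset.sum_congr rfl fun J _ => ?_
          simp only [inr_iff]
          split_ifs <;> norm_num
        rw [e2]
        have : 0 ≤ T * (p * p) := by positivity
        linarith
      · rw [if_neg h, add_zero]
        have e2 : ∑ J : Tup (R * 2) n, (if inr ψ J i then (1 : ℝ) else 0) *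
            (if inr ψ J i' then (1 : ℝ) else 0) = T * q := by
          rw [hTd, hq, ← avg_in ψ (e4 i i' h) hR]
          refine Finset.sum_congr rfl fun J _ => ?_
          simp only [← inr_iff2 ψ J i i' h]
          by_cases h1 : inr ψ J i <;> by_cases h2 : inr ψ J i' <;> simp [h1, h2]
        rw [e2]
        exact mul_le_mul_of_nonneg_left hqp hTp.le
    calc ∑ J : Tup (R * 2) n, (∑ i ∈ I, if inr ψ J i then (1 : ℝ) else 0) ^ 2
        = ∑ i ∈ I, ∑ i' ∈ I, ∑ J : Tup (R * 2) n, (if inr ψ J i then (1 : ℝ) else 0) *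
            (if inr ψ J i' then (1 : ℝ) else 0) := by
          rw [Finset.sum_congr rfl fun J _ => by rw [pow_two, Finset.sum_mul_sum]]
          rw [Finset.sum_comm]
          refine Finset.sum_congr rfl fun i _ => ?_
          rw [Finset.sum_comm]
      _ ≤ ∑ i ∈ I, ∑ i' ∈ I, (T * (p * p) + (if i = i' then T * p else 0)) :=
          Finset.sum_le_sum fun i hi => Finset.sum_le_sum fun i' hi' => e1 i hi i' hi'
      _ = T * (a + a * a) := by
          simp only [Finset.sum_add_distrib, Finset.sum_const, nsmul_eq_mul, Finset.sum_ite_eq]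
          rw [Finset.sum_ite_mem, Finset.inter_self, Finset.sum_const, nsmul_eq_mul, ha]
          ring
  obtain ⟨b, hb⟩ : ∃ b : ℝ, b = #(univ.filter fun J : Tup (R * 2) n => ∃ i ∈ I, inr ψ J i) :=
    ⟨_, rfl⟩
  have h3 : (∑ J, X J) ^ 2 ≤ b * ∑ J, X J ^ 2 := by
    have e1 : ∑ J, X J = ∑ J ∈ univ.filter (fun J : Tup (R * 2) n => ∃ i ∈ I, inr ψ J i),
        1 * X J := by
      rw [Finset.sum_filter]
      refine Finset.sum_congr rfl fun J _ => ?_
      split_ifs with h
      · rw [one_mul]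
      · rw [hX]
        push Not at h
        exact Finset.sum_eq_zero fun i hi => if_neg (h i hi)
    rw [e1]
    refine (Finset.sum_mul_sq_le_sq_mul_sq _ _ _).trans ?_
    apply mul_le_mul
    · rw [one_pow, Finset.sum_const, nsmul_eq_mul, mul_one, hb]
    · exact Finset.sum_le_sum_of_subset_of_nonneg (Finset.filter_subset _ _)
        fun _ _ _ => by positivity
    · exact Finset.sum_nonneg fun _ _ => by positivity
    · rw [hb]; positivity
  have hb0 : 0 ≤ b := by rw [hb]; positivity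
  have h4 : T * a ≤ b * (1 + a) := by
    rw [h1] at h3
    have e1 : (T * a) * (T * a) ≤ (T * a) * (b * (1 + a)) := by
      calc (T * a) * (T * a) = (T * a) ^ 2 := by ring
        _ ≤ b * ∑ J, X J ^ 2 := h3
        _ ≤ b * (T * (a + a * a)) := mul_le_mul_of_nonneg_left h2 hb0
        _ = _ := by ring
    exact le_of_mul_le_mul_left e1 (by positivity)
  have h5 : 3 * T ≤ 4 * b := by
    by_contra hcon
    push Not at hcon
    have e1 : b * (1 + a) < 3 / 4 * T * (1 + a) := by
      apply mul_lt_mul_of_pos_right _ (by linarith)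
      linarith
    nlinarith
  have h6 := Finset.card_filter_add_card_filter_not (s := (univ : Finset (Tup (R * 2) n)))
    (fun J : Tup (R * 2) n => ∃ i ∈ I, inr ψ J i)
  rw [Finset.card_univ] at h6
  have h7 : b + (#(univ.filter fun J : Tup (R * 2) n => ¬ ∃ i ∈ I, inr ψ J i) : ℝ) = T := by
    rw [hb, hTd]; exact_mod_cast h6
  have h8 : 4 * (#(univ.filter fun J : Tup (R * 2) n => ¬ ∃ i ∈ I, inr ψ J i) : ℝ) ≤
      Fintype.card (Tup (R * 2) n) := by
    rw [← hTd]; linarith
  exact_mod_cast h8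

end

end Pool.Agent.K1H7.LE
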