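import Pool.Agent.K1H7.LE.High
import Pool.Agent.H477R2.TE.GAPE
import Pool.Agent.H852R2.TE.MAIN

/-!
The spectral gap of random elements together with a local expander.
-/

set_option autoImplicit false

namespace Pool.Agent.K1H7.LE
open RC14 Pool.Agent.K1H7.EP Finset Equiv Filter Topology TE852

noncomputable section

/-- functions of high level -/
theorem high {n r k l m R : ℕ} (hn : 1000 ≤ n) (hm : 4 ≤ m) (hR : R * 2 + 2 ≤ n) (t N : ℕ)
    (hN : 100 ≤ N) (hr : ∀ j : ℕ, N * j ≤ n → j ≤ r)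
    (ht : 32 * (t : ℝ) < (R - 1) * (1 / (7 * (N : ℝ))))
    (htm : 3 * (n * (n - 1) : ℝ) ≤ t * (m * (m - 1)))
    (x : Fin k → Alt n) (c : ℝ) (hc : 0 < c)
    (hgap : ∀ f : RC14.V (R * 2) n, ∑ a, f a = 0 → c * ‖f‖ ^ 2 ≤ En (repA (R * 2) n) x f)
    (hl : 1 ≤ l) (ψ : Fin m ↪ Fin n) (s : Fin l → Alt m) (ε : ℝ) (hε : 0 < ε)
    (hs : Expanding ε s) (v : FA n) (hv : v ∈ HH r n) :
    c1 c k (l * ε) * ‖v‖ ^ 2 ≤ En (RR n) (Fin.append x (fun i => vA ψ (s i))) v := by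
  have hl' : (0 : ℝ) < l := by exact_mod_cast hl
  obtain ⟨y, hy⟩ : ∃ y, y = Fin.append x (fun i => vA ψ (s i)) := ⟨_, rfl⟩
  rw [← hy]
  obtain ⟨D, W, -, hW, hdec⟩ := DECOMP (RR n) (HH r n) (HH_inv r n)
  have key := hdec (k + l) y (fun _ => 1) (c1 c k (l * ε)) (fun _ => zero_le_one) ?_ v hv
  · simp only [one_mul] at key
    exact key
  · intro i w hw
    have hirr := AMP1.irr_res (RR n) (W i) (hW i).1
    have hne : ∃ u : W i, u ≠ 0 := by
      by_contra hcon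
      push Not at hcon
      apply (hW i).1.1
      rw [Submodule.eq_bot_iff]
      intro x hx
      exact congrArg Subtype.val (hcon ⟨x, hx⟩)
    obtain ⟨u, hu, hu2⟩ := LL14.HIGHNx.highA N hN n hn (res (RR n) (W i) (hW i).1.2.1) hne (by
      intro K hK x hx
      have := NOINV n r (x : FA n) ((hW i).2 x.2) K (hr _ hK) (by
        intro h hh
        have h1 := congrArg Subtype.val (hx h hh)
        exact h1)
      exact Subtype.ext this)
    have h1 := irr_case (by omega) hm hR t (7 * (N : ℝ)) (by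
      have : (100 : ℝ) ≤ N := by exact_mod_cast hN
      linarith) (res (RR n) (W i) (hW i).1.2.1) hirr u hu hu2 ht htm x c hc hgap ψ s (l * ε) (by positivity) (by
      intro w g
      have h2 := kz2 s (2 * l * ε) (by positivity) (cgap hl s ε hs) (vA ψ) (w : FA n) g
      have e : 4 / (2 * l * ε) = 2 / (l * ε) := by
        field_simp
        norm_num
      rw [e] at h2
      exact h2) ⟨w, hw⟩
    simp only [one_mul]
    rw [← hy] at h1
    have e1 : ‖(⟨w, hw⟩ : W i)‖ = ‖w‖ := rfl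
    rw [e1] at h1
    refine h1.trans (le_of_eq ?_)
    unfold En
    refine Finset.sum_congr rfl fun j _ => ?_
    rw [Submodule.coe_norm, Submodule.coe_sub, res_apply]

/-- the deterministic part -/
theorem det (δ : ℝ) (hδ : 0 < δ) (hδ1 : δ ≤ 1 / 4) (k : ℕ) (hk : 1 ≤ k) (c : ℝ) (hc : 0 < c) :
    ∀ᶠ n : ℕ in atTop, ∀ x : Fin k → Alt n, Good1 n (Rr (1 - δ / 2) n) c x →
      ∀ (l : ℕ), 1 ≤ l → ∀ (m : ℕ), (n : ℝ) ^ (1 / 2 + δ) ≤ m → ∀ (ψ : Fin m ↪ Fin n)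
        (s : Fin l → Alt m) (ε : ℝ), 0 < ε → Expanding ε s →
        Expanding (c1 c k (l * ε) / (2 * (k + l : ℕ))) (Fin.append x (fun i => vA ψ (s i))) := by
  have t2 : Tendsto (fun n : ℕ => (n : ℝ)) atTop atTop := tendsto_natCast_atTop_atTop
  have h1 : ∀ᶠ n : ℕ in atTop, 100 ≤ (n : ℝ) ^ (δ / 2) :=
    ((tendsto_rpow_atTop (show (0 : ℝ) < δ / 2 by linarith)).comp t2).eventually_ge_atTop 100
  have h2 : ∀ᶠ n : ℕ in atTop, 9412 ≤ (n : ℝ) ^ δ :=
    ((tendsto_rpow_atTop hδ).comp t2).eventually_ge_atTop _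
  have h3 : ∀ᶠ n : ℕ in atTop, 4 ≤ (n : ℝ) ^ (1 / 2 + δ) :=
    ((tendsto_rpow_atTop (show (0 : ℝ) < 1 / 2 + δ by linarith)).comp t2).eventually_ge_atTop 4
  filter_upwards [h1, h2, h3, eventually_ge_atTop 1000] with n h1 h2 h3 hn
  intro x hx l hl m hm ψ s ε hε hs
  have hnR : (1000 : ℝ) ≤ n := by exact_mod_cast hn
  have hnp : (0 : ℝ) < n := by linarith
  have hm4 : (4 : ℝ) ≤ m := h3.trans hm
  have hm4' : 4 ≤ m := by exact_mod_cast hm4
  -- levels
  obtain ⟨P, hP⟩ : ∃ P : ℝ, P = (n : ℝ) ^ (δ / 2) := ⟨_, rfl⟩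
  rw [← hP] at h1
  obtain ⟨N, hN⟩ : ∃ N : ℕ, N = ⌈2 * P⌉₊ := ⟨_, rfl⟩
  have hN1 : 2 * P ≤ N := by rw [hN]; exact Nat.le_ceil _
  have hN2 : (N : ℝ) ≤ 3 * P := by
    have := (Nat.ceil_lt_add_one (show 0 ≤ 2 * P by linarith)).le
    rw [← hN] at this
    linarith
  have hN100 : 100 ≤ N := by
    have : (100 : ℝ) ≤ N := by linarith
    exact_mod_cast this
  have hPP : P * (n : ℝ) ^ (1 - δ / 2) = n := by
    rw [hP, ← Real.rpow_add hnp]
    have : δ / 2 + (1 - δ / 2) = 1 := by ring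
    rw [this, Real.rpow_one]
  have hr : ∀ j : ℕ, N * j ≤ n → j ≤ Rr (1 - δ / 2) n := by
    intro j hj
    unfold Rr
    apply Nat.le_floor
    have e1 : (N : ℝ) * j ≤ n := by exact_mod_cast hj
    have e2 : P * j ≤ P * (n : ℝ) ^ (1 - δ / 2) := by
      rw [hPP]
      have : P * (j : ℝ) ≤ N * j := by
        have hj0 : (0 : ℝ) ≤ j := Nat.cast_nonneg j
        nlinarith
      linarith
    exact le_of_mul_le_mul_left e2 (by linarith)
  -- the number of pairs of each kind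
  obtain ⟨Q, hQ⟩ : ∃ Q : ℝ, Q = (n : ℝ) ^ (1 - 2 * δ) := ⟨_, rfl⟩
  have hQ1 : 1 ≤ Q := by rw [hQ]; exact Real.one_le_rpow (by linarith) (by linarith)
  obtain ⟨t, ht⟩ : ∃ t : ℕ, t = ⌈6 * Q⌉₊ := ⟨_, rfl⟩
  have ht1 : 6 * Q ≤ t := by rw [ht]; exact Nat.le_ceil _
  have ht2 : (t : ℝ) ≤ 7 * Q := by
    have := (Nat.ceil_lt_add_one (show 0 ≤ 6 * Q by linarith)).le
    rw [← ht] at this
    linarith
  obtain ⟨R, hR⟩ : ∃ R : ℕ, R = 224 * N * t + 2 := ⟨_, rfl⟩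
  have hRr : ((R * 2 : ℕ) : ℝ) ≤ (n : ℝ) ^ (1 - δ / 2) := by
    have e1 : P * Q * (n : ℝ) ^ δ = (n : ℝ) ^ (1 - δ / 2) := by
      rw [hP, hQ, ← Real.rpow_add hnp, ← Real.rpow_add hnp]
      congr 1; ring
    have e2 : (N : ℝ) * t ≤ 3 * P * (7 * Q) := mul_le_mul hN2 ht2 (by positivity) (by linarith)
    have e3 : (1 : ℝ) ≤ P * Q := by nlinarith
    have e4 : 9412 * (P * Q) ≤ P * Q * (n : ℝ) ^ δ := by
      have : 0 ≤ P * Q := by linarith
      nlinarith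
    rw [← e1, hR]
    push_cast
    linarith
  have hRn : (n : ℝ) ^ (1 - δ / 2) ≤ n / 2 := by
    have : 2 * (n : ℝ) ^ (1 - δ / 2) ≤ P * (n : ℝ) ^ (1 - δ / 2) := by
      apply mul_le_mul_of_nonneg_right _ (by positivity)
      linarith
    rw [hPP] at this
    linarith
  have hR2 : R * 2 + 2 ≤ n := by
    have : ((R * 2 + 2 : ℕ) : ℝ) ≤ n := by
      push_cast at hRr ⊢
      linarith
    exact_mod_cast this
  have hR3 : R * 2 ≤ Rr (1 - δ / 2) n := by
    unfold Rr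
    exact Nat.le_floor hRr
  have hgap := FRV n (R * 2) k hR2 x c (fun j hj1 hj2 => hx j hj1 (hj2.trans hR3))
  have hl' : (0 : ℝ) < l := by exact_mod_cast hl
  obtain ⟨e, he⟩ : ∃ e, e = l * ε := ⟨_, rfl⟩
  have he0 : 0 < e := by rw [he]; positivity
  have hc1 := c1_pos c hc k e he0
  have hc1c : c1 c k e ≤ c := by
    unfold c1
    rw [div_le_iff₀ (by positivity)]
    have e1 : c * (8 / c + (64 * k / c + 4) / e) = 8 + (64 * k + 4 * c) / e := by
      field_simp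
    rw [e1]
    have e2 : 0 ≤ (64 * (k : ℝ) + 4 * c) / e := by positivity
    linarith
  have htt : 32 * (t : ℝ) < (R - 1) * (1 / (7 * (N : ℝ))) := by
    have hN0 : (0 : ℝ) < N := by linarith
    rw [hR, mul_one_div, lt_div_iff₀ (by positivity)]
    push_cast
    linarith
  have htm : 3 * (n * (n - 1) : ℝ) ≤ t * (m * (m - 1)) := by
    have e1 : (n : ℝ) ^ (1 / 2 + δ) * (n : ℝ) ^ (1 / 2 + δ) = (n : ℝ) ^ (1 + 2 * δ) := by
      rw [← Real.rpow_add hnp]; congr 1; ring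
    have e2 : (n : ℝ) ^ (1 + 2 * δ) ≤ (m : ℝ) * m := by
      rw [← e1]
      exact mul_le_mul hm hm (by positivity) (by positivity)
    have e3 : (m : ℝ) * m / 2 ≤ m * (m - 1) := by nlinarith
    have e4 : Q * (n : ℝ) ^ (1 + 2 * δ) = n * n := by
      rw [hQ, ← Real.rpow_add hnp]
      have : 1 - 2 * δ + (1 + 2 * δ) = 2 := by ring
      rw [this, Real.rpow_two, sq]
    have e5 : 3 * ((n : ℝ) * n) ≤ 3 * (Q * (m * m)) := by
      rw [← e4]
      have := mul_le_mul_of_nonneg_left e2 (show 0 ≤ Q by linarith)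
      linarith
    have e6 : 6 * Q * (m * (m - 1)) ≤ t * (m * (m - 1)) := by
      apply mul_le_mul_of_nonneg_right ht1
      apply mul_nonneg <;> linarith
    have e7 : 6 * Q * ((m : ℝ) * m / 2) ≤ 6 * Q * (m * (m - 1)) :=
      mul_le_mul_of_nonneg_left e3 (by linarith)
    have e8 : 3 * ((n : ℝ) * (n - 1)) ≤ 3 * (n * n) := by nlinarith
    linarith
  rw [← he]
  refine FRALL n (Rr (1 - δ / 2) n) (k + l) (by omega) _ (c1 c k e) hc1 ?_ ?_
  · intro j hj1 hj2 f hf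
    have e1 := hx j hj1 hj2 f hf
    have e2 : En (repA j n) x f ≤ En (repA j n) (Fin.append x (fun i => vA ψ (s i))) f := by
      rw [En_append]
      have := RC14.En_nonneg (repA j n) (fun i => vA ψ (s i)) f
      linarith
    have e4 : c1 c k e * ‖f‖ ^ 2 ≤ c * ‖f‖ ^ 2 :=
      mul_le_mul_of_nonneg_right hc1c (by positivity)
    linarith
  · intro f hf
    rw [he]
    exact high hn hm4' hR2 t N hN100 hr htt htm x c hc hgap hl ψ s ε hε hs f hf

end

end Pool.Agent.K1H7.LE
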