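import Pool.Agent.K1H7.EP.High
import Pool.Agent.K1H7.EP.Spec
import Pool.Agent.K1H7.EP.Kz

/-!
The elementary abelian 2-group of even products of `R` disjoint transpositions.
-/

set_option autoImplicit false

namespace Pool.Agent.K1H7.LE
open RC14 Pool.Agent.K1H7.EP Finset Equiv
open scoped InnerProductSpace ComplexConjugate

noncomputable section

variable {R n : ℕ}

/-- simultaneous transpositions -/
def fl (a : Fin R → ZMod 2) : Perm (Fin R × ZMod 2) :=
  Equiv.prodCongrRight fun i => Equiv.addRight (a i)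

lemma fl_apply (a : Fin R → ZMod 2) (z : Fin R × ZMod 2) : fl a z = (z.1, z.2 + a z.1) := rfl

lemma fl_add (a b : Fin R → ZMod 2) : fl (a + b) = fl a * fl b := by
  ext1 z
  rw [Perm.mul_apply, fl_apply, fl_apply, fl_apply]
  ext1
  · rfl
  · change z.2 + (a z.1 + b z.1) = z.2 + b z.1 + a z.1
    ring

lemma sign_add (x y : ZMod 2) : Perm.sign (Equiv.addRight (x + y)) =
    Perm.sign (Equiv.addRight x) * Perm.sign (Equiv.addRight y) := by
  rw [← Perm.sign_mul]
  congr 1
  ext1 z
  rw [Perm.mul_apply]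
  change z + (x + y) = z + y + x
  ring

lemma sign_fl (a : Fin R → ZMod 2) (h : ∑ i, a i = 0) : Perm.sign (fl a) = 1 := by
  unfold fl
  rw [Perm.sign_prodCongrRight]
  have h1 : ∀ s : Finset (Fin R), ∏ i ∈ s, Perm.sign (Equiv.addRight (a i)) =
      Perm.sign (Equiv.addRight (∑ i ∈ s, a i)) := by
    classical
    intro s
    induction s using Finset.induction_on with
    | empty =>
      rw [Finset.prod_empty, Finset.sum_empty]
      have : (Equiv.addRight (0 : ZMod 2)) = 1 := by
        ext1 z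
        change z + 0 = z
        ring
      rw [this, Perm.sign_one]
    | insert i s hi ih =>
      rw [Finset.prod_insert hi, Finset.sum_insert hi, sign_add, ih]
  rw [h1, h]
  have : (Equiv.addRight (0 : ZMod 2)) = 1 := by
    ext1 z
    change z + 0 = z
    ring
  rw [this, Perm.sign_one]

/-- functions with sum zero -/
def Ev (R : ℕ) : AddSubgroup (Fin R → ZMod 2) where
  carrier := {a | ∑ i, a i = 0}
  zero_mem' := by simp
  add_mem' := by
    intro a b ha hb
    simp only [Set.mem_ofPred_eq, Pi.add_apply, Finset.sum_add_distrib] at *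
    rw [ha, hb, add_zero]
  neg_mem' := by
    intro a ha
    simp only [Set.mem_ofPred_eq, Pi.neg_apply, Finset.sum_neg_distrib] at *
    rw [ha, neg_zero]

instance : Fintype (Ev R) := Fintype.ofFinite _

/-- the pairs of `J` -/
def jm (J : Tup (R * 2) n) : Fin R × ZMod 2 ↪ Fin n :=
  (show Fin R × Fin 2 ↪ Fin n from finProdFinEquiv.toEmbedding.trans J)

lemma jm_mv (g : Perm (Fin n)) (J : Tup (R * 2) n) :
    jm (mv g J) = (jm J).trans g.toEmbedding := rfl

/-- products of an even number of the transpositions -/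
def ta (J : Tup (R * 2) n) (a : Ev R) : Alt n :=
  ⟨ve (jm J) (fl a.1), by
    rw [Perm.mem_alternatingGroup, ve_sign]
    exact sign_fl _ a.2⟩

lemma ta_add (J : Tup (R * 2) n) (a b : Ev R) : ta J (a + b) = ta J a * ta J b := by
  apply Subtype.ext
  change ve (jm J) (fl (a.1 + b.1)) = ve (jm J) (fl a.1) * ve (jm J) (fl b.1)
  rw [fl_add, map_mul]

lemma ta_conj (g : Alt n) (J : Tup (R * 2) n) (a : Ev R) :
    g * ta J a * g⁻¹ = ta (mv (g : Perm (Fin n)) J) a := by
  apply Subtype.ext
  change (g : Perm (Fin n)) * ve (jm J) (fl a.1) * (g : Perm (Fin n))⁻¹ = _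
  rw [ve_conj]
  rfl

/-- the product of the transpositions `i` and `j` -/
def pe (i j : Fin R) : Ev R := ⟨(Pi.single i 1 : Fin R → ZMod 2) + Pi.single j 1, by
  change ∑ k, ((Pi.single i (1 : ZMod 2) : Fin R → ZMod 2) k +
    (Pi.single j (1 : ZMod 2) : Fin R → ZMod 2) k) = 0
  rw [Finset.sum_add_distrib, Finset.sum_pi_single', Finset.sum_pi_single']
  simp only [Finset.mem_univ, if_true]
  decide⟩

lemma pe_add (i j k : Fin R) : pe i j + pe j k = pe i k := by
  apply Subtype.ext
  change ((Pi.single i (1 : ZMod 2) : Fin R → ZMod 2) + Pi.single j 1) +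
    (Pi.single j 1 + Pi.single k 1) = Pi.single i 1 + Pi.single k 1
  have h : (Pi.single j (1 : ZMod 2) : Fin R → ZMod 2) + Pi.single j 1 = 0 := by
    rw [← Pi.single_add]
    have : (1 : ZMod 2) + 1 = 0 := by decide
    rw [this, Pi.single_zero]
  rw [add_assoc, ← add_assoc (Pi.single j (1 : ZMod 2) : Fin R → ZMod 2), h, zero_add]

lemma pe_self (i : Fin R) : pe i i = 0 := by
  apply Subtype.ext
  change (Pi.single i (1 : ZMod 2) + Pi.single i 1 : Fin R → ZMod 2) = 0
  rw [← Pi.single_add]
  have : (1 : ZMod 2) + 1 = 0 := by decide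
  rw [this, Pi.single_zero]

lemma pe_comm (i j : Fin R) : pe i j = pe j i := by
  apply Subtype.ext
  change (Pi.single i (1 : ZMod 2) + Pi.single j 1 : Fin R → ZMod 2) = Pi.single j 1 + Pi.single i 1
  rw [add_comm]

/-- the values of a character on pairs are `1` or `-1` -/
lemma chi_pe (χ : AddChar (Ev R) ℂ) (i j : Fin R) : χ (pe i j) = 1 ∨ χ (pe i j) = -1 := by
  have h1 : χ (pe i j) * χ (pe i j) = 1 := by
    rw [← AddChar.map_add_eq_mul]
    have : pe i j + pe i j = 0 := by
      nth_rewrite 2 [pe_comm]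
      rw [pe_add, pe_self]
    rw [this, AddChar.map_zero_eq_one]
  exact mul_self_eq_one_iff.1 h1

lemma chi_pe_mul (χ : AddChar (Ev R) ℂ) (i j k : Fin R) :
    χ (pe i k) = χ (pe i j) * χ (pe j k) := by
  rw [← AddChar.map_add_eq_mul, pe_add]

/-- the points moved by `ta J (pe i j)` -/
lemma ta_pe_fix (J : Tup (R * 2) n) (i j : Fin R) (z : Fin n)
    (hi : ∀ b, z ≠ jm J (i, b)) (hj : ∀ b, z ≠ jm J (j, b)) :
    ((ta J (pe i j) : Alt n) : Perm (Fin n)) z = z := by
  classical
  change ve (jm J) (fl (pe i j).1) z = z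
  by_cases h : ∃ y, z = jm J y
  · obtain ⟨⟨k, b⟩, rfl⟩ := h
    rw [ve_apply, fl_apply]
    have hki : k ≠ i := fun h => hi b (by rw [h])
    have hkj : k ≠ j := fun h => hj b (by rw [h])
    have h1 : (pe i j).1 k = 0 := by
      change (Pi.single i (1 : ZMod 2) : Fin R → ZMod 2) k + (Pi.single j 1 : Fin R → ZMod 2) k = 0
      rw [Pi.single_eq_of_ne hki, Pi.single_eq_of_ne hkj, add_zero]
    change jm J (k, b + (pe i j).1 k) = jm J (k, b)
    rw [h1, add_zero]
  · push Not at h
    exact ve_not _ _ _ h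

/-- if both pairs lie in the range of `ψ` then the product lies in the alternating group of the
range -/
lemma ta_pe_mem {m : ℕ} (ψ : Fin m ↪ Fin n) (J : Tup (R * 2) n) (i j : Fin R)
    (hi : ∀ b, jm J (i, b) ∈ Set.range ψ) (hj : ∀ b, jm J (j, b) ∈ Set.range ψ) :
    ∃ e : Alt m, vA ψ e = ta J (pe i j) := by
  obtain ⟨e, he⟩ := ve_surj ψ ((ta J (pe i j) : Alt n) : Perm (Fin n)) (by
    intro z hz
    apply ta_pe_fix
    · rintro b rfl
      obtain ⟨y, hy⟩ := hi b
      exact hz y hy.symm
    · rintro b rfl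
      obtain ⟨y, hy⟩ := hj b
      exact hz y hy.symm)
  have hs : Perm.sign e = 1 := by
    rw [← ve_sign ψ, he]
    exact Perm.mem_alternatingGroup.1 (ta J (pe i j)).2
  refine ⟨⟨e, Perm.mem_alternatingGroup.2 hs⟩, Subtype.ext he⟩

/-! ### double transpositions -/

/-- the product of two transpositions -/
def d4 (q : Tup 4 n) : Alt n :=
  ⟨Equiv.swap (q 0) (q 1) * Equiv.swap (q 2) (q 3), by
    have h1 : q 0 ≠ q 1 := fun h => absurd (q.injective h) (by decide)
    have h2 : q 2 ≠ q 3 := fun h => absurd (q.injective h) (by decide)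
    rw [Perm.mem_alternatingGroup, Perm.sign_mul, Perm.sign_swap h1, Perm.sign_swap h2]
    decide⟩

/-- the embedding of four positions -/
def e4 (i j : Fin R) (h : i ≠ j) : Fin 4 ↪ Fin (R * 2) :=
  ⟨![finProdFinEquiv (i, 0), finProdFinEquiv (i, 1), finProdFinEquiv (j, 0),
      finProdFinEquiv (j, 1)], by
    intro a b hab
    have h01 : ∀ k : Fin R, finProdFinEquiv (k, (0 : Fin 2)) ≠ finProdFinEquiv (k, (1 : Fin 2)) := by
      intro k h'
      have : (0 : Fin 2) = 1 := congrArg Prod.snd (finProdFinEquiv.injective h')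
      exact Fin.zero_ne_one this
    have hij : ∀ x y : Fin 2, finProdFinEquiv (i, x) ≠ finProdFinEquiv (j, y) := by
      intro x y h'
      exact h (congrArg Prod.fst (finProdFinEquiv.injective h'))
    fin_cases a <;> fin_cases b
    · rfl
    · exact absurd hab (h01 i)
    · exact absurd hab (hij 0 0)
    · exact absurd hab (hij 0 1)
    · exact absurd hab (h01 i).symm
    · rfl
    · exact absurd hab (hij 1 0)
    · exact absurd hab (hij 1 1)
    · exact absurd hab (hij 0 0).symm
    · exact absurd hab (hij 1 0).symm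
    · rfl
    · exact absurd hab (h01 j)
    · exact absurd hab (hij 0 1).symm
    · exact absurd hab (hij 1 1).symm
    · exact absurd hab (h01 j).symm
    · rfl⟩

lemma ve_swap {α β : Type*} [DecidableEq α] [DecidableEq β] (ι : α ↪ β) (a b : α) :
    Equiv.swap (ι a) (ι b) = ve ι (Equiv.swap a b) := by
  refine ve_ext _ _ _ ?_ ?_
  · intro x
    by_cases h1 : x = a
    · subst h1; rw [swap_apply_left, swap_apply_left]
    · by_cases h2 : x = b
      · subst h2; rw [swap_apply_right, swap_apply_right]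
      · rw [swap_apply_of_ne_of_ne h1 h2, swap_apply_of_ne_of_ne (fun h => h1 (ι.injective h))
          (fun h => h2 (ι.injective h))]
  · intro x hx
    exact swap_apply_of_ne_of_ne (hx a) (hx b)

lemma fl_single (i : Fin R) : fl (Pi.single i (1 : ZMod 2)) =
    Equiv.swap ((i, 0) : Fin R × ZMod 2) (i, 1) := by
  ext1 ⟨k, b⟩
  rw [fl_apply]
  by_cases h : k = i
  · subst h
    change (k, b + (Pi.single k (1 : ZMod 2) : Fin R → ZMod 2) k) = _
    rw [Pi.single_eq_same]
    have hb : b = 0 ∨ b = 1 := by revert b; decide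
    rcases hb with rfl | rfl
    · rw [swap_apply_left]; rfl
    · rw [swap_apply_right]; rfl
  · change (k, b + (Pi.single i (1 : ZMod 2) : Fin R → ZMod 2) k) = _
    rw [Pi.single_eq_of_ne h, add_zero, swap_apply_of_ne_of_ne]
    · intro h2; exact h (congrArg Prod.fst h2)
    · intro h2; exact h (congrArg Prod.fst h2)

lemma ta_pe (J : Tup (R * 2) n) (i j : Fin R) (h : i ≠ j) :
    ta J (pe i j) = d4 ((e4 i j h).trans J) := by
  apply Subtype.ext
  change ve (jm J) (fl (Pi.single i 1 + Pi.single j 1)) =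
    Equiv.swap (jm J (i, 0)) (jm J (i, 1)) * Equiv.swap (jm J (j, 0)) (jm J (j, 1))
  rw [fl_add, map_mul, fl_single, fl_single, ve_swap, ve_swap]

end

end Pool.Agent.K1H7.LE
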