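import Pool.Agent.K1H7.LE.Dt
import Pool.Agent.H506R2.RC.HIGHC

/-!
The energy of the products of two disjoint transpositions, and balanced characters.
-/

set_option autoImplicit false

namespace Pool.Agent.K1H7.LE
open RC14 Pool.Agent.K1H7.EP Finset Equiv
open scoped InnerProductSpace ComplexConjugate

noncomputable section

variable {R n : ℕ}
variable {V : Type*} [NormedAddCommGroup V] [InnerProductSpace ℂ V]

def q3 : Fin 3 ↪ Fin 5 := ⟨![0, 1, 2], by decide⟩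
def q4 : Fin 4 ↪ Fin 5 := ⟨![0, 1, 3, 4], by decide⟩
def q5 : Fin 4 ↪ Fin 5 := ⟨![3, 4, 1, 2], by decide⟩

lemma c3_d4 (p : Tup 5 n) : c3 (q3.trans p) = d4 (q4.trans p) * d4 (q5.trans p) := by
  apply Subtype.ext
  change Equiv.swap (p 0) (p 1) * Equiv.swap (p 1) (p 2) =
    (Equiv.swap (p 0) (p 1) * Equiv.swap (p 3) (p 4)) *
    (Equiv.swap (p 3) (p 4) * Equiv.swap (p 1) (p 2))
  have h : Equiv.swap (p 3) (p 4) * Equiv.swap (p 3) (p 4) = 1 := Equiv.swap_mul_self _ _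
  calc Equiv.swap (p 0) (p 1) * Equiv.swap (p 1) (p 2)
      = Equiv.swap (p 0) (p 1) * 1 * Equiv.swap (p 1) (p 2) := by rw [mul_one]
    _ = Equiv.swap (p 0) (p 1) * (Equiv.swap (p 3) (p 4) * Equiv.swap (p 3) (p 4)) *
        Equiv.swap (p 1) (p 2) := by rw [h]
    _ = _ := by simp only [mul_assoc]

lemma disp_mul (ρ : Alt n →* (V ≃ₗᵢ[ℂ] V)) (g h : Alt n) (v : V) :
    ‖ρ (g * h) v - v‖ ^ 2 ≤ 2 * ‖ρ g v - v‖ ^ 2 + 2 * ‖ρ h v - v‖ ^ 2 := by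
  have h1 : ρ (g * h) v - v = ρ g (ρ h v - v) + (ρ g v - v) := by
    rw [map_mul]
    change ρ g (ρ h v) - v = _
    rw [map_sub]; abel
  have h2 : ‖ρ (g * h) v - v‖ ≤ ‖ρ h v - v‖ + ‖ρ g v - v‖ := by
    rw [h1]
    refine (norm_add_le _ _).trans ?_
    rw [(ρ g).norm_map]
  have h3 := norm_nonneg (ρ (g * h) v - v)
  nlinarith [sq_nonneg (‖ρ h v - v‖ - ‖ρ g v - v‖)]

/-- the energies of 3-cycles and of products of two disjoint transpositions -/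
lemma d4_energy (hn : 5 ≤ n) (ρ : Alt n →* (V ≃ₗᵢ[ℂ] V)) (v : V) :
    (∑ s : Tup 3 n, ‖ρ (c3 s) v - v‖ ^ 2) / Fintype.card (Tup 3 n) ≤
      4 * ((∑ q : Tup 4 n, ‖ρ (d4 q) v - v‖ ^ 2) / Fintype.card (Tup 4 n)) := by
  have h1 := HIGHCaux.avg q3 hn (fun s => ‖ρ (c3 s) v - v‖ ^ 2)
  have h2 := HIGHCaux.avg q4 hn (fun s => ‖ρ (d4 s) v - v‖ ^ 2)
  have h3 := HIGHCaux.avg q5 hn (fun s => ‖ρ (d4 s) v - v‖ ^ 2)
  have h4 : ∑ p : Tup 5 n, ‖ρ (c3 (q3.trans p)) v - v‖ ^ 2 ≤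
      2 * ∑ p : Tup 5 n, ‖ρ (d4 (q4.trans p)) v - v‖ ^ 2 +
      2 * ∑ p : Tup 5 n, ‖ρ (d4 (q5.trans p)) v - v‖ ^ 2 := by
    rw [Finset.mul_sum, Finset.mul_sum, ← Finset.sum_add_distrib]
    refine Finset.sum_le_sum fun p _ => ?_
    rw [c3_d4]
    exact disp_mul _ _ _ _
  rw [← h1]
  calc _ ≤ (2 * ∑ p : Tup 5 n, ‖ρ (d4 (q4.trans p)) v - v‖ ^ 2 +
      2 * ∑ p : Tup 5 n, ‖ρ (d4 (q5.trans p)) v - v‖ ^ 2) / Fintype.card (Tup 5 n) :=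
        div_le_div_of_nonneg_right h4 (Nat.cast_nonneg _)
    _ = 2 * ((∑ p : Tup 5 n, ‖ρ (d4 (q4.trans p)) v - v‖ ^ 2) / Fintype.card (Tup 5 n)) +
      2 * ((∑ p : Tup 5 n, ‖ρ (d4 (q5.trans p)) v - v‖ ^ 2) / Fintype.card (Tup 5 n)) := by ring
    _ = _ := by rw [h2, h3]; ring

/-- the energy of the elements `ta J (pe i j)` -/
lemma ta_energy (hR : R * 2 ≤ n) (ρ : Alt n →* (V ≃ₗᵢ[ℂ] V)) (v : V) (i j : Fin R) (h : i ≠ j) :
    ∑ J : Tup (R * 2) n, ‖ρ (ta J (pe i j)) v - v‖ ^ 2 = Fintype.card (Tup (R * 2) n) *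
      ((∑ q : Tup 4 n, ‖ρ (d4 q) v - v‖ ^ 2) / Fintype.card (Tup 4 n)) := by
  have h1 := HIGHCaux.avg (e4 i j h) hR (fun s => ‖ρ (d4 s) v - v‖ ^ 2)
  have hc : (Fintype.card (Tup (R * 2) n) : ℝ) ≠ 0 := by
    have : Nonempty (Tup (R * 2) n) := ⟨Fin.castLEEmb hR⟩
    exact_mod_cast Fintype.card_ne_zero
  rw [← h1]
  simp only [ta_pe _ i j h]
  field_simp

/-- the inner product formula for spectral projections -/
lemma Es_inner {A : Type} [AddCommGroup A] [Fintype A] {G : Type*} [Group G]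
    (ρ : G →* (V ≃ₗᵢ[ℂ] V)) (τ : A → G) (hτ : ∀ a b, τ (a + b) = τ a * τ b)
    (χ : AddChar A ℂ) (v : V) : ((‖Es ρ τ χ v‖ ^ 2 : ℝ) : ℂ) = ⟪v, Es ρ τ χ v⟫_ℂ := by
  have h0 := card_ne (A := A)
  have h1 : ((‖Es ρ τ χ v‖ ^ 2 : ℝ) : ℂ) = ⟪Es ρ τ χ v, Es ρ τ χ v⟫_ℂ := by
    rw [inner_self_eq_norm_sq_to_K]; push_cast; rfl
  rw [h1]
  nth_rewrite 1 [Es]
  rw [inner_smul_left, sum_inner]
  have h2 : ∀ a, ⟪(conj (χ a)) • ρ (τ a) v, Es ρ τ χ v⟫_ℂ = ⟪v, Es ρ τ χ v⟫_ℂ := by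
    intro a
    rw [inner_smul_left, Complex.conj_conj]
    have h3 : Es ρ τ χ v = χ a • Es ρ τ χ (ρ (τ (-a)) v) := by
      rw [Es_tau ρ τ hτ, smul_smul, ← AddChar.map_add_eq_mul, add_neg_cancel,
        AddChar.map_zero_eq_one, one_smul]
    have h4 : ρ (τ a) (Es ρ τ χ v) = χ a • Es ρ τ χ v := by
      unfold Es
      rw [map_smul, map_sum, smul_comm (χ a), Finset.smul_sum (r := χ a)]
      congr 1
      rw [← Equiv.sum_comp (Equiv.addRight a) (fun b => χ a • (conj (χ b)) • ρ (τ b) v)]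
      refine Finset.sum_congr rfl fun b _ => ?_
      simp only [Equiv.coe_addRight]
      have h1 : ρ (τ (b + a)) v = ρ (τ a) (ρ (τ b) v) := by
        rw [add_comm, hτ, map_mul]; rfl
      rw [map_smul, h1, smul_smul, AddChar.map_add_eq_mul, map_mul]
      congr 1
      have h2 : χ a * conj (χ a) = 1 := by
        rw [← AddChar.map_neg_eq_conj, ← AddChar.map_add_eq_mul, add_neg_cancel,
          AddChar.map_zero_eq_one]
      linear_combination (-(conj (χ b))) * h2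
    have h5 : ⟪ρ (τ a) v, ρ (τ a) (Es ρ τ χ v)⟫_ℂ = ⟪v, Es ρ τ χ v⟫_ℂ :=
      (ρ (τ a)).inner_map_map _ _
    rw [← h5, h4, inner_smul_right]
  rw [Finset.sum_congr rfl fun a _ => h2 a, Finset.sum_const, Finset.card_univ, nsmul_eq_mul]
  simp only [map_div₀, map_one, map_natCast]
  field_simp

lemma Es_equi (ρ : Alt n →* (V ≃ₗᵢ[ℂ] V)) (J : Tup (R * 2) n) (χ : AddChar (Ev R) ℂ) (g : Alt n)
    (v : V) : Es ρ (ta (mv (g : Perm (Fin n)) J)) χ (ρ g v) = ρ g (Es ρ (ta J) χ v) := by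
  unfold Es
  rw [map_smul, map_sum]
  congr 1
  refine Finset.sum_congr rfl fun a _ => ?_
  rw [map_smul]
  congr 1
  rw [← ta_conj]
  have : ρ (g * ta J a * g⁻¹) (ρ g v) = ρ (g * ta J a * g⁻¹ * g) v := by
    rw [map_mul ρ (g * ta J a * g⁻¹)]; rfl
  rw [this, inv_mul_cancel_right, map_mul]
  rfl

section
variable [FiniteDimensional ℂ V]

/-- the total spectral mass of a character is a scalar -/
lemma Es_scalar (ρ : Alt n →* (V ≃ₗᵢ[ℂ] V)) (hirr : Irr ρ ⊤) (χ : AddChar (Ev R) ℂ) :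
    ∃ c : ℝ, ∀ v : V, ∑ J : Tup (R * 2) n, ‖Es ρ (ta J) χ v‖ ^ 2 = c * ‖v‖ ^ 2 := by
  obtain ⟨B, hB⟩ : ∃ B : Module.End ℂ V, B = ∑ J : Tup (R * 2) n,
    (1 / (Fintype.card (Ev R) : ℂ)) • ∑ a, (conj (χ a)) • op ρ (ta J a) := ⟨_, rfl⟩
  have hBv : ∀ v, B v = ∑ J : Tup (R * 2) n, Es ρ (ta J) χ v := by
    intro v
    rw [hB, LinearMap.sum_apply]
    refine Finset.sum_congr rfl fun J _ => ?_
    rw [LinearMap.smul_apply, LinearMap.sum_apply]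
    rfl
  have hcomm : ∀ g, op ρ g * B = B * op ρ g := by
    intro g
    ext v
    rw [Module.End.mul_apply, Module.End.mul_apply, hBv, hBv, map_sum]
    rw [← Equiv.sum_comp (mvE (g : Equiv.Perm (Fin n)))
      (fun J => Es ρ (ta J) χ ((op ρ g) v))]
    refine Finset.sum_congr rfl fun J _ => ?_
    exact (Es_equi ρ J χ g v).symm
  have h := SCHUR ρ hirr B hcomm
  obtain ⟨μ, hμ⟩ : ∃ μ : ℂ, μ = LinearMap.trace ℂ V B / (Module.finrank ℂ V : ℂ) := ⟨_, rfl⟩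
  rw [← hμ] at h
  refine ⟨μ.re, fun v => ?_⟩
  have h1 : ((∑ J : Tup (R * 2) n, ‖Es ρ (ta J) χ v‖ ^ 2 : ℝ) : ℂ) = μ * ((‖v‖ : ℂ)) ^ 2 := by
    rw [Complex.ofReal_sum]
    rw [Finset.sum_congr rfl fun J _ => Es_inner ρ (ta J) (ta_add J) χ v, ← inner_sum, ← hBv, h]
    simp only [LinearMap.smul_apply, Module.End.one_apply, inner_smul_right,
      inner_self_eq_norm_sq_to_K]
    rfl
  have h2 := congrArg Complex.re h1
  rw [Complex.ofReal_re] at h2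
  rw [h2, ← Complex.ofReal_pow, Complex.re_mul_ofReal]

end

end

end Pool.Agent.K1H7.LE
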