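import Pool.Agent.K1H7.LE.Det
import Pool.Agent.K1H7.EP.Many

/-!
Assembly.
-/

set_option autoImplicit false

namespace Pool.Agent.K1H7.LE
open RC14 Pool.Agent.K1H7.EP Finset Equiv Filter Topology TE852

noncomputable section

/-- the final constant -/
def cfin (c : ℝ) (k : ℕ) : ℝ := 1 / (2 * (k + 1) * (8 / c) + 2 * (k + 1) * (64 * k / c + 4))

lemma cfin_pos (c : ℝ) (hc : 0 < c) (k : ℕ) : 0 < cfin c k := by unfold cfin; positivity

lemma cfin_le (c : ℝ) (hc : 0 < c) (k l : ℕ) (hl : 1 ≤ l) (ε : ℝ) (hε : 0 < ε) :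
    cfin c k * min ε (1 / (l : ℝ)) ≤ c1 c k (l * ε) / (2 * (k + l : ℕ)) := by
  have hl' : (1 : ℝ) ≤ l := by exact_mod_cast hl
  have hl0 : (0 : ℝ) < l := by linarith
  obtain ⟨μ, hμ⟩ : ∃ μ : ℝ, μ = min ε (1 / (l : ℝ)) := ⟨_, rfl⟩
  have hμ0 : 0 < μ := by rw [hμ]; positivity
  have hμ1 : μ ≤ ε := by rw [hμ]; exact min_le_left _ _
  have hμ2 : μ * l ≤ 1 := by
    have : μ ≤ 1 / l := by rw [hμ]; exact min_le_right _ _
    rwa [le_div_iff₀ hl0] at this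
  rw [← hμ]
  obtain ⟨A, hA⟩ : ∃ A, A = 8 / c := ⟨_, rfl⟩
  obtain ⟨B, hB⟩ : ∃ B, B = 64 * k / c + 4 := ⟨_, rfl⟩
  have hA0 : 0 < A := by rw [hA]; positivity
  have hB0 : 0 < B := by rw [hB]; positivity
  unfold cfin c1
  rw [← hA, ← hB]
  rw [le_div_iff₀ (by positivity), le_div_iff₀ (by positivity), one_div_mul_eq_div,
    div_mul_eq_mul_div, div_mul_eq_mul_div, div_le_one (by positivity)]
  have h1 : μ * (2 * ((k + l : ℕ) : ℝ)) ≤ 2 * (k + 1) * (μ * l) := by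
    push_cast
    have : (k : ℝ) + l ≤ (k + 1) * l := by
      have hk : (0 : ℝ) ≤ k := Nat.cast_nonneg k
      nlinarith
    nlinarith
  have h2 : μ * (2 * ((k + l : ℕ) : ℝ)) * (A + B / (l * ε)) ≤
      2 * (k + 1) * (μ * l) * (A + B / (l * ε)) :=
    mul_le_mul_of_nonneg_right h1 (by positivity)
  refine h2.trans ?_
  have h3 : 2 * ((k : ℝ) + 1) * (μ * l) * (A + B / (l * ε)) =
      2 * (k + 1) * A * (μ * l) + 2 * (k + 1) * B * (μ / ε) := by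
    field_simp
  rw [h3]
  have h4 : 2 * ((k : ℝ) + 1) * A * (μ * l) ≤ 2 * (k + 1) * A * 1 :=
    mul_le_mul_of_nonneg_left hμ2 (by positivity)
  have h5 : 2 * ((k : ℝ) + 1) * B * (μ / ε) ≤ 2 * (k + 1) * B * 1 := by
    apply mul_le_mul_of_nonneg_left _ (by positivity)
    rw [div_le_one hε]; exact hμ1
  linarith

lemma expanding_mono {G : Type*} [Group G] [Fintype G] {k : ℕ} (ε ε' : ℝ) (h : ε' ≤ ε)
    (x : Fin k → G) (hx : Expanding ε x) : Expanding ε' x := by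
  refine ⟨hx.1, fun f hf => (hx.2 f hf).trans ?_⟩
  apply mul_le_mul_of_nonneg_right _ (Finset.sum_nonneg fun g _ => sq_nonneg _)
  linarith

/-- the event -/
def Loc {n k : ℕ} (δ c : ℝ) (x : Fin k → Alt n) : Prop :=
  ∀ (l : ℕ), 1 ≤ l → ∀ (m : ℕ), (n : ℝ) ^ (1 / 2 + δ) ≤ m → ∀ (ψ : Fin m ↪ Fin n)
    (s : Fin l → Alt m) (ε : ℝ), 0 < ε → Expanding ε s →
    Expanding (c * min ε (1 / (l : ℝ))) (Fin.append x (fun i => vA ψ (s i)))

/-- the main theorem -/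
theorem main (δ : ℝ) (hδ : 0 < δ) : ∃ k₀ : ℕ, ∀ k ≥ k₀, ∃ c : ℝ, 0 < c ∧ ∀ ε₀ : ℝ, 0 < ε₀ →
    ∀ᶠ n : ℕ in atTop, (Nat.card {x : Fin k → Alt n // ¬ Loc δ c x} : ℝ) ≤
      ε₀ * (Fintype.card (Alt n) : ℝ) ^ k := by
  obtain ⟨δ', hδ', h1, h2⟩ : ∃ δ' : ℝ, 0 < δ' ∧ δ' ≤ 1 / 4 ∧ δ' ≤ δ :=
    ⟨min δ (1 / 4), lt_min hδ (by norm_num), min_le_right _ _, min_le_left _ _⟩
  obtain ⟨k0, hk0⟩ := GAPE (1 - δ' / 2) (TEMAIN (1 - δ' / 2) (by linarith))
  refine ⟨k0 + 1, fun k hk => ?_⟩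
  obtain ⟨c, hc, B, hB, hgap⟩ := hk0 k (by omega)
  refine ⟨cfin c k, cfin_pos c hc k, fun ε₀ hε₀ => ?_⟩
  have t2 : Tendsto (fun n : ℕ => (n : ℝ)) atTop atTop := tendsto_natCast_atTop_atTop
  filter_upwards [hgap, det δ' hδ' h1 k (by omega) c hc, t2.eventually_ge_atTop (B / ε₀),
    t2.eventually_ge_atTop 1] with n hgap hdet hB2 hn
  have hnp : (0 : ℝ) < n := by linarith
  have h3 := RC14.card_mono (fun x : Fin k → Alt n => ¬ Loc δ (cfin c k) x)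
      (fun x => ¬ Good1 n (Rr (1 - δ' / 2) n) c x) (fun x hx hgood => hx (by
        intro l hl m hm ψ s ε hε hs
        have e3 : (n : ℝ) ^ (1 / 2 + δ') ≤ (n : ℝ) ^ (1 / 2 + δ) :=
          Real.rpow_le_rpow_of_exponent_le hn (by linarith)
        exact expanding_mono _ _ (cfin_le c hc k l hl ε hε) _
          (hdet x hgood l hl m (e3.trans hm) ψ s ε hε hs)))
  calc _ ≤ (Nat.card {x : Fin k → Alt n // ¬ Good1 n (Rr (1 - δ' / 2) n) c x} : ℝ) := by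
        exact_mod_cast h3
    _ ≤ B / (n : ℝ) * (Fintype.card (Alt n) : ℝ) ^ k := hgap
    _ ≤ _ := by
        apply mul_le_mul_of_nonneg_right _ (by positivity)
        rw [div_le_iff₀ hnp]
        rw [div_le_iff₀ hε₀] at hB2
        linarith

/-! ### a fixed pair of small support -/

/-- an even permutation without fixed points -/
lemma no_fix (m : ℕ) (hm : 3 ≤ m) : ∃ a : Alt m, ∀ i, (a : Perm (Fin m)) i ≠ i := by
  obtain ⟨m, rfl⟩ : ∃ m', m = m' + 1 := ⟨m - 1, by omega⟩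
  refine ⟨⟨finRotate (m + 1) * finRotate (m + 1), ?_⟩, fun i => ?_⟩
  · rw [Perm.mem_alternatingGroup, Perm.sign_mul, Int.units_mul_self]
  · change finRotate (m + 1) (finRotate (m + 1) i) ≠ i
    rw [finRotate_apply, finRotate_apply, add_assoc]
    intro h
    have h1 : (1 + 1 : Fin (m + 1)) = 0 := by
      have : i + (1 + 1) = i + 0 := by rw [h, add_zero]
      exact add_left_cancel this
    have h2 := congrArg Fin.val h1
    rw [Fin.val_add] at h2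
    have h3 : ((1 : Fin (m + 1)) : ℕ) = 1 := by
      rw [Fin.val_one']
      exact Nat.mod_eq_of_lt (by omega)
    rw [h3, Nat.mod_eq_of_lt (by omega)] at h2
    simp at h2

/-- small expanding pairs -/
theorem small_pair (δ : ℝ) (hδ : 0 < δ) (hδ1 : δ ≤ 1 / 4) : ∃ ε : ℝ, 0 < ε ∧ ∀ᶠ n : ℕ in atTop,
    ∃ (m : ℕ) (_ψ : Fin m ↪ Fin n) (s : Fin 2 → Alt m), (n : ℝ) ^ (1 / 2 + δ / 2) ≤ m ∧
      (m : ℝ) ≤ (n : ℝ) ^ (1 / 2 + δ) ∧ Expanding ε s := by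
  obtain ⟨ε, hε, n₀, hn₀'⟩ := pairs_many 1 (1 / 2) one_pos (by norm_num)
  have hn₀ : ∀ n ≥ n₀, ∀ a : Alt n, (1 : ℝ) * n ≤ (#{i | (a : Perm (Fin n)) i ≠ i} : ℕ) →
      ∃ b : Alt n, Expanding ε ![a, b] := by
    intro n hn a ha
    have h := hn₀' n hn a ha
    have h1 : (0 : ℝ) < (Fintype.card (Alt n) : ℝ) ^ (1 - 1 / 2 : ℝ) := by
      have : (0 : ℝ) < Fintype.card (Alt n) := by exact_mod_cast Fintype.card_pos
      positivity
    have h2 : 0 < Nat.card {b : Alt n // Expanding ε ![a, b]} := by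
      exact_mod_cast h1.trans_le h
    obtain ⟨⟨b, hb⟩⟩ := (Nat.card_pos_iff.1 h2).1
    exact ⟨b, hb⟩
  refine ⟨ε, hε, ?_⟩
  have t2 : Tendsto (fun n : ℕ => (n : ℝ)) atTop atTop := tendsto_natCast_atTop_atTop
  have h1 : ∀ᶠ n : ℕ in atTop, 2 ≤ (n : ℝ) ^ (δ / 2) :=
    ((tendsto_rpow_atTop (show (0 : ℝ) < δ / 2 by linarith)).comp t2).eventually_ge_atTop 2
  have h2 : ∀ᶠ n : ℕ in atTop, (n₀ + 3 : ℝ) ≤ (n : ℝ) ^ (1 / 2 + δ / 2) :=
    ((tendsto_rpow_atTop (show (0 : ℝ) < 1 / 2 + δ / 2 by linarith)).comp t2).eventually_ge_atTop _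
  filter_upwards [h1, h2, eventually_ge_atTop 1] with n h1 h2 hn
  have hnR : (1 : ℝ) ≤ n := by exact_mod_cast hn
  have hnp : (0 : ℝ) < n := by linarith
  obtain ⟨Q, hQ⟩ : ∃ Q : ℝ, Q = (n : ℝ) ^ (1 / 2 + δ / 2) := ⟨_, rfl⟩
  rw [← hQ] at h2 ⊢
  have hQ1 : 1 ≤ Q := by
    have : (0 : ℝ) ≤ n₀ := Nat.cast_nonneg _
    linarith
  have hQ2 : 2 * Q ≤ (n : ℝ) ^ (1 / 2 + δ) := by
    have e : Q * (n : ℝ) ^ (δ / 2) = (n : ℝ) ^ (1 / 2 + δ) := by
      rw [hQ, ← Real.rpow_add hnp]; congr 1; ring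
    rw [← e]
    nlinarith
  have hQ3 : (n : ℝ) ^ (1 / 2 + δ) ≤ n := by
    calc (n : ℝ) ^ (1 / 2 + δ) ≤ (n : ℝ) ^ (1 : ℝ) :=
          Real.rpow_le_rpow_of_exponent_le hnR (by linarith)
      _ = n := Real.rpow_one _
  obtain ⟨m, hm⟩ : ∃ m : ℕ, m = ⌈Q⌉₊ := ⟨_, rfl⟩
  have hm1 : Q ≤ m := by rw [hm]; exact Nat.le_ceil _
  have hm2 : (m : ℝ) ≤ 2 * Q := by
    have := (Nat.ceil_lt_add_one (show 0 ≤ Q by linarith)).le
    rw [← hm] at this
    linarith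
  have hmn : m ≤ n := by
    have : (m : ℝ) ≤ n := by linarith
    exact_mod_cast this
  have hm3 : n₀ + 3 ≤ m := by
    have : ((n₀ + 3 : ℕ) : ℝ) ≤ m := by push_cast; linarith
    exact_mod_cast this
  obtain ⟨a, ha⟩ := no_fix m (by omega)
  obtain ⟨b, hb⟩ := hn₀ m (by omega) a (by
    have e : (univ.filter fun i => (a : Perm (Fin m)) i ≠ i) = univ := by
      rw [Finset.filter_true_of_mem]
      exact fun i _ => ha i
    rw [e, Finset.card_univ, Fintype.card_fin, one_mul])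
  exact ⟨m, Fin.castLEEmb hmn, ![a, b], hm1, hm2.trans hQ2, hb⟩

/-- **random elements with a fixed pair of small support** -/
theorem fixed (δ : ℝ) (hδ : 0 < δ) : ∃ k₀ : ℕ, ∀ k ≥ k₀, ∃ ε : ℝ, 0 < ε ∧
    ∃ a b : (n : ℕ) → Alt n, (∀ n, (#{i | ((a n : Alt n) : Perm (Fin n)) i ≠ i ∨
      ((b n : Alt n) : Perm (Fin n)) i ≠ i} : ℝ) ≤ (n : ℝ) ^ (1 / 2 + δ)) ∧
    ∀ ε₀ : ℝ, 0 < ε₀ → ∀ᶠ n : ℕ in atTop,
      (Nat.card {x : Fin k → Alt n // ¬ Expanding ε (Fin.append x ![a n, b n])} : ℝ) ≤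
      ε₀ * (Fintype.card (Alt n) : ℝ) ^ k := by
  classical
  obtain ⟨δ', hδ', h1, h2⟩ : ∃ δ' : ℝ, 0 < δ' ∧ δ' ≤ 1 / 4 ∧ δ' ≤ δ :=
    ⟨min δ (1 / 4), lt_min hδ (by norm_num), min_le_right _ _, min_le_left _ _⟩
  obtain ⟨k0, hk0⟩ := main (δ' / 2) (by linarith)
  obtain ⟨ε, hε, hev⟩ := small_pair δ' hδ' h1
  refine ⟨k0, fun k hk => ?_⟩
  obtain ⟨c, hc, hmain⟩ := hk0 k hk
  obtain ⟨ε1, hε1⟩ : ∃ ε1, ε1 = c * min ε (1 / ((2 : ℕ) : ℝ)) := ⟨_, rfl⟩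
  have hε1p : 0 < ε1 := by rw [hε1]; positivity
  -- the property of the pair
  obtain ⟨Q, hQ⟩ : ∃ Q : ∀ n : ℕ, Alt n × Alt n → Prop, Q = fun n p =>
    (#{i | (p.1 : Perm (Fin n)) i ≠ i ∨ (p.2 : Perm (Fin n)) i ≠ i} : ℝ) ≤
      (n : ℝ) ^ (1 / 2 + δ) ∧ ∀ x : Fin k → Alt n, Loc (δ' / 2) c x →
      Expanding ε1 (Fin.append x ![p.1, p.2]) := ⟨_, rfl⟩
  have hQev : ∀ᶠ n : ℕ in atTop, ∃ p, Q n p := by
    filter_upwards [hev, eventually_ge_atTop 1] with n ⟨m, ψ, s, hm1, hm2, hs⟩ hn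
    have hnR : (1 : ℝ) ≤ n := by exact_mod_cast hn
    refine ⟨(vA ψ (s 0), vA ψ (s 1)), ?_⟩
    rw [hQ]
    constructor
    · have e1 : (univ.filter fun i => ((vA ψ (s 0) : Alt n) : Perm (Fin n)) i ≠ i ∨
          ((vA ψ (s 1) : Alt n) : Perm (Fin n)) i ≠ i) ⊆ (univ : Finset (Fin m)).image ψ := by
        intro i hi
        rw [Finset.mem_filter] at hi
        rw [Finset.mem_image]
        by_contra hcon
        push Not at hcon
        have e2 : ∀ g : Alt m, ((vA ψ g : Alt n) : Perm (Fin n)) i = i := by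
          intro g
          exact ve_not ψ _ i (fun y => (hcon y (Finset.mem_univ y)).symm)
        rcases hi.2 with h | h
        · exact h (e2 _)
        · exact h (e2 _)
      have e3 := (Finset.card_le_card e1).trans Finset.card_image_le
      rw [Finset.card_univ, Fintype.card_fin] at e3
      have e4 : (#(univ.filter fun i => ((vA ψ (s 0) : Alt n) : Perm (Fin n)) i ≠ i ∨
          ((vA ψ (s 1) : Alt n) : Perm (Fin n)) i ≠ i) : ℝ) ≤ m := by exact_mod_cast e3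
      refine e4.trans (hm2.trans ?_)
      exact Real.rpow_le_rpow_of_exponent_le hnR (by linarith)
    · intro x hx
      have e1 := hx 2 (by norm_num) m hm1 ψ s ε hε hs
      rw [← hε1] at e1
      have e2 : (fun i => vA ψ (s i)) = ![vA ψ (s 0), vA ψ (s 1)] := by
        funext i
        fin_cases i <;> rfl
      rw [e2] at e1
      exact e1
  obtain ⟨p, hp⟩ : ∃ p : ∀ n : ℕ, Alt n × Alt n, p = fun n =>
    if h : ∃ p, Q n p then h.choose else (1, 1) := ⟨_, rfl⟩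
  have hpQ : ∀ n, (∃ p, Q n p) → Q n (p n) := by
    intro n h
    rw [hp]
    simp only [dif_pos h]
    exact h.choose_spec
  refine ⟨ε1, hε1p, fun n => (p n).1, fun n => (p n).2, fun n => ?_, fun ε₀ hε₀ => ?_⟩
  · by_cases h : ∃ p, Q n p
    · have := hpQ n h
      rw [hQ] at this
      exact this.1
    · have e1 : p n = (1, 1) := by rw [hp]; simp only [dif_neg h]
      beta_reduce
      rw [e1]
      simp only [OneMemClass.coe_one, Perm.one_apply, ne_eq, not_true_eq_false, or_self,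
        Finset.filter_false, Finset.card_empty, Nat.cast_zero]
      positivity
  · filter_upwards [hQev, hmain ε₀ hε₀] with n h3 h4
    have h5 := hpQ n h3
    rw [hQ] at h5
    have h6 := RC14.card_mono (fun x : Fin k → Alt n =>
      ¬ Expanding ε1 (Fin.append x ![(p n).1, (p n).2])) (fun x => ¬ Loc (δ' / 2) c x)
      (fun x hx h => hx (h5.2 x h))
    refine le_trans ?_ h4
    exact_mod_cast h6

end

end Pool.Agent.K1H7.LE
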