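import Pool.Agent.K1H7.LE.Hole
import Pool.Agent.K1H7.LE.Count
import Pool.Agent.H20R2.RC.FRV

/-!
The energy inequality at high levels.
-/

set_option autoImplicit false

namespace Pool.Agent.K1H7.LE
open RC14 Pool.Agent.K1H7.EP Finset Equiv
open scoped InnerProductSpace ComplexConjugate

noncomputable section

/-- the complex gap inequality -/
lemma cgap {l m : ℕ} (hl : 1 ≤ l) (s : Fin l → Alt m) (ε : ℝ) (hs : Expanding ε s) (F : FA m)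
    (hF : ∑ g, F g = 0) : 2 * l * ε * ‖F‖ ^ 2 ≤ En (RR m) s F := by
  have hl' : (0 : ℝ) < 2 * l := by
    have : (0 : ℝ) < l := by exact_mod_cast hl
    linarith
  have h1 : ∀ f : Alt m → ℝ, ∑ g, f g = 0 →
      2 * l * ε * ‖FRLOW.cf f‖ ^ 2 ≤ En (RR m) s (FRLOW.cf f) := by
    intro f hf
    have e1 := hs.2 f hf
    rw [FRLOW.walk_id hl, ← FRLOW.norm_cf] at e1
    have e2 : ε * ‖FRLOW.cf f‖ ^ 2 ≤ En (RR m) s (FRLOW.cf f) / (2 * l) := by linarith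
    rw [le_div_iff₀ hl'] at e2
    linarith
  have h2 := h1 (fun g => (F g).re) (by
    rw [← Complex.re_sum, hF, Complex.zero_re])
  have h3 := h1 (fun g => (F g).im) (by
    rw [← Complex.im_sum, hF, Complex.zero_im])
  have h4 : ‖F‖ ^ 2 = ‖FRLOW.cf fun g => (F g).re‖ ^ 2 + ‖FRLOW.cf fun g => (F g).im‖ ^ 2 := by
    rw [FRLOW.norm_cf, FRLOW.norm_cf, EuclideanSpace.norm_sq_eq, ← Finset.sum_add_distrib]
    refine Finset.sum_congr rfl fun g _ => ?_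
    rw [← Complex.normSq_eq_norm_sq, Complex.normSq_apply]; ring
  have h5 : En (RR m) s F = En (RR m) s (FRLOW.cf fun g => (F g).re) +
      En (RR m) s (FRLOW.cf fun g => (F g).im) := by
    rw [FRLOW.En_cf, FRLOW.En_cf, En, ← Finset.sum_add_distrib]
    refine Finset.sum_congr rfl fun i _ => ?_
    rw [EuclideanSpace.norm_sq_eq, ← Finset.sum_add_distrib]
    refine Finset.sum_congr rfl fun g _ => ?_
    rw [PiLp.sub_apply, RR_apply, ← Complex.normSq_eq_norm_sq, Complex.normSq_apply,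
      Complex.sub_re, Complex.sub_im]
    ring
  rw [h4, h5]
  linarith

/-- the gap inequality as bounded generation, with the sum of the displacements -/
theorem kz2 {S K n : ℕ} (x : Fin K → Alt S) (κ : ℝ) (hκ : 0 < κ)
    (hx : ∀ f : FA S, ∑ g, f g = 0 → κ * ‖f‖ ^ 2 ≤ En (RR S) x f) (φ : Alt S →* Alt n)
    (f : FA n) (g : Alt S) :
    ‖RR n (φ g) f - f‖ ^ 2 ≤ 4 / κ * En (RR n) (fun i => φ (x i)) f := by
  have hc : (0 : ℝ) < Fintype.card (Alt S) := by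
    exact_mod_cast (Fintype.card_pos (α := Alt S))
  have h1 : κ * ∑ h, ‖cs φ f h‖ ^ 2 ≤
      Fintype.card (Alt S) * En (RR n) (fun i => φ (x i)) f := by
    calc κ * ∑ h, ‖cs φ f h‖ ^ 2 = ∑ h, κ * ‖cs φ f h‖ ^ 2 := by rw [Finset.mul_sum]
      _ ≤ ∑ h, En (RR S) x (cs φ f h) := Finset.sum_le_sum fun h _ => hx _ (cs_sum φ f h)
      _ = ∑ i, ∑ h, ‖RR S (x i) (cs φ f h) - cs φ f h‖ ^ 2 := by
          unfold En; rw [Finset.sum_comm]
      _ = ∑ i, (Fintype.card (Alt S) : ℝ) * ‖RR n (φ (x i)) f - f‖ ^ 2 :=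
          Finset.sum_congr rfl fun i _ => cs_disp φ f (x i)
      _ = _ := by unfold En; rw [Finset.mul_sum]
  have h2 : (Fintype.card (Alt S) : ℝ) * ‖RR n (φ g) f - f‖ ^ 2 ≤ 4 * ∑ h, ‖cs φ f h‖ ^ 2 := by
    rw [← cs_disp, Finset.mul_sum]
    refine Finset.sum_le_sum fun h _ => ?_
    have h3 : ‖RR S g (cs φ f h) - cs φ f h‖ ≤ 2 * ‖cs φ f h‖ := by
      refine (norm_sub_le _ _).trans ?_
      rw [LinearIsometryEquiv.norm_map]; linarith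
    calc ‖RR S g (cs φ f h) - cs φ f h‖ ^ 2 ≤ (2 * ‖cs φ f h‖) ^ 2 :=
          pow_le_pow_left₀ (norm_nonneg _) h3 2
      _ = _ := by ring
  have h4 : κ * (Fintype.card (Alt S) * ‖RR n (φ g) f - f‖ ^ 2) ≤
      4 * (Fintype.card (Alt S) * En (RR n) (fun i => φ (x i)) f) := by
    have := mul_le_mul_of_nonneg_left h2 hκ.le
    linarith
  have h5 : κ * ‖RR n (φ g) f - f‖ ^ 2 ≤ 4 * En (RR n) (fun i => φ (x i)) f := by
    have : Fintype.card (Alt S) * (κ * ‖RR n (φ g) f - f‖ ^ 2) ≤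
        Fintype.card (Alt S) * (4 * En (RR n) (fun i => φ (x i)) f) := by linarith
    exact le_of_mul_le_mul_left this hc
  calc ‖RR n (φ g) f - f‖ ^ 2 = (κ * ‖RR n (φ g) f - f‖ ^ 2) / κ := by field_simp
    _ ≤ (4 * En (RR n) (fun i => φ (x i)) f) / κ := div_le_div_of_nonneg_right h5 hκ.le
    _ = _ := by ring

/-- the constant; `e` stands for `l ε` -/
def c1 (c : ℝ) (k : ℕ) (e : ℝ) : ℝ := 1 / (8 / c + (64 * k / c + 4) / e)

lemma c1_pos (c : ℝ) (hc : 0 < c) (k : ℕ) (e : ℝ) (he : 0 < e) : 0 < c1 c k e := by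
  unfold c1; positivity

section
variable {V : Type*} [NormedAddCommGroup V] [InnerProductSpace ℂ V]
variable {n m : ℕ}

/-- the average over a subgroup -/
def av (ρ : Alt n →* (V ≃ₗᵢ[ℂ] V)) (φ : Alt m →* Alt n) (v : V) : V :=
  (1 / (Fintype.card (Alt m) : ℂ)) • ∑ g : Alt m, ρ (φ g) v

lemma av_inv (ρ : Alt n →* (V ≃ₗᵢ[ℂ] V)) (φ : Alt m →* Alt n) (v : V) (e : Alt m) :
    ρ (φ e) (av ρ φ v) = av ρ φ v := by
  unfold av
  rw [map_smul, map_sum]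
  congr 1
  rw [← Equiv.sum_comp (Equiv.mulLeft e) (fun g => ρ (φ g) v)]
  refine Finset.sum_congr rfl fun g _ => ?_
  rw [Equiv.coe_mulLeft, map_mul φ, map_mul]
  rfl

lemma av_sub (ρ : Alt n →* (V ≃ₗᵢ[ℂ] V)) (φ : Alt m →* Alt n) (v : V) (η : ℝ)
    (h : ∀ g, ‖ρ (φ g) v - v‖ ≤ η) : ‖av ρ φ v - v‖ ≤ η := by
  have hc : (Fintype.card (Alt m) : ℂ) ≠ 0 := by
    exact_mod_cast (Fintype.card_pos (α := Alt m)).ne'
  have hc' : (0 : ℝ) < Fintype.card (Alt m) := by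
    exact_mod_cast (Fintype.card_pos (α := Alt m))
  have e1 : av ρ φ v - v = (1 / (Fintype.card (Alt m) : ℂ)) • ∑ g : Alt m, (ρ (φ g) v - v) := by
    unfold av
    rw [Finset.sum_sub_distrib, smul_sub, Finset.sum_const, Finset.card_univ,
      ← Nat.cast_smul_eq_nsmul ℂ, smul_smul, one_div, inv_mul_cancel₀ hc, one_smul]
  rw [e1, norm_smul, norm_div, norm_one, Complex.norm_natCast, one_div,
    inv_mul_le_iff₀ hc']
  refine (norm_sum_le _ _).trans ((Finset.sum_le_sum fun g _ => h g).trans ?_)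
  rw [Finset.sum_const, Finset.card_univ, nsmul_eq_mul]

/-- comparison of the energies -/
lemma En_cmp {k : ℕ} (ρ : Alt n →* (V ≃ₗᵢ[ℂ] V)) (x : Fin k → Alt n) (v w : V) :
    En ρ x w ≤ 2 * En ρ x v + 8 * k * ‖w - v‖ ^ 2 := by
  unfold En
  rw [Finset.mul_sum]
  have h1 : ∀ i, ‖ρ (x i) w - w‖ ^ 2 ≤ 2 * ‖ρ (x i) v - v‖ ^ 2 + 8 * ‖w - v‖ ^ 2 := by
    intro i
    have e1 : ρ (x i) w - w = (ρ (x i) v - v) + (ρ (x i) (w - v) - (w - v)) := by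
      rw [map_sub]; abel
    have e2 : ‖ρ (x i) (w - v) - (w - v)‖ ≤ 2 * ‖w - v‖ := by
      refine (norm_sub_le _ _).trans ?_
      rw [(ρ (x i)).norm_map]; linarith
    have e3 : ‖ρ (x i) w - w‖ ≤ ‖ρ (x i) v - v‖ + 2 * ‖w - v‖ := by
      rw [e1]
      exact (norm_add_le _ _).trans (by linarith)
    have e4 := norm_nonneg (ρ (x i) w - w)
    nlinarith [sq_nonneg (‖ρ (x i) v - v‖ - 2 * ‖w - v‖)]
  calc _ ≤ ∑ i, (2 * ‖ρ (x i) v - v‖ ^ 2 + 8 * ‖w - v‖ ^ 2) := Finset.sum_le_sum fun i _ => h1 i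
    _ = _ := by
      rw [Finset.sum_add_distrib, Finset.sum_const, Finset.card_univ, Fintype.card_fin,
        nsmul_eq_mul]
      ring

variable [FiniteDimensional ℂ V]

/-- **the irreducible case** -/
theorem irr_case {k l R : ℕ} (hn : 5 ≤ n) (hm : 4 ≤ m) (hR : R * 2 + 2 ≤ n) (t : ℕ) (N : ℝ)
    (hN : 0 < N)
    (ρ : Alt n →* (V ≃ₗᵢ[ℂ] V)) (hirr : Irr ρ ⊤) (u : V) (hu0 : u ≠ 0)
    (hu : 1 / N * ‖u‖ ^ 2 * Fintype.card (Tup 3 n) ≤ ∑ s : Tup 3 n, ‖ρ (c3 s) u - u‖ ^ 2)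
    (ht : 32 * (t : ℝ) < (R - 1) * (1 / N))
    (htm : 3 * (n * (n - 1) : ℝ) ≤ t * (m * (m - 1)))
    (x : Fin k → Alt n) (c : ℝ) (hc : 0 < c)
    (hgap : ∀ f : RC14.V (R * 2) n, ∑ a, f a = 0 → c * ‖f‖ ^ 2 ≤ En (repA (R * 2) n) x f)
    (ψ : Fin m ↪ Fin n) (s : Fin l → Alt m) (e : ℝ) (he : 0 < e)
    (hkz : ∀ (w : V) (g : Alt m), ‖ρ (vA ψ g) w - w‖ ^ 2 ≤
      2 / e * En ρ (fun i => vA ψ (s i)) w) (w : V) :
    c1 c k e * ‖w‖ ^ 2 ≤ En ρ (Fin.append x (fun i => vA ψ (s i))) w := by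
  classical
  have hRpos : 0 < R := by
    by_contra h
    have : R = 0 := by omega
    subst this
    have h1 : (0 : ℝ) ≤ 32 * t := by positivity
    have h2 : ((0 : ℕ) - 1 : ℝ) * (1 / N) ≤ 0 := by
      have : 0 ≤ 1 / N := by positivity
      push_cast; nlinarith
    linarith
  have hT : 0 < Fintype.card (Tup (R * 2) n) := by
    have : Nonempty (Tup (R * 2) n) := ⟨Fin.castLEEmb (by omega)⟩
    exact Fintype.card_pos
  obtain ⟨i0, -⟩ : ∃ i0 : Fin R, True := ⟨⟨0, hRpos⟩, trivial⟩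
  obtain ⟨χ, hp, hmi, c0, hc0, hsc⟩ := exists_bal hn ρ hirr t (by omega) i0 (1 / N) u hu0 hu ht
  obtain ⟨Ex, hEx⟩ : ∃ Ex, Ex = En ρ x w := ⟨_, rfl⟩
  obtain ⟨Ey, hEy⟩ : ∃ Ey, Ey = En ρ (fun i => vA ψ (s i)) w := ⟨_, rfl⟩
  have hEx0 : 0 ≤ Ex := by rw [hEx]; exact RC14.En_nonneg _ _ _
  have hEy0 : 0 ≤ Ey := by rw [hEy]; exact RC14.En_nonneg _ _ _
  rw [En_append, ← hEx, ← hEy]
  have h2 : ∀ g, ‖ρ (vA ψ g) w - w‖ ≤ √(2 / e * Ey) := by
    intro g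
    apply Real.le_sqrt_of_sq_le
    rw [hEy]
    exact hkz w g
  obtain ⟨w', hw'⟩ : ∃ w', w' = av ρ (vA ψ) w := ⟨_, rfl⟩
  have h3 : ‖w' - w‖ ≤ √(2 / e * Ey) := by rw [hw']; exact av_sub ρ (vA ψ) w _ h2
  have h3' : ‖w' - w‖ ^ 2 ≤ 2 / e * Ey := by
    calc ‖w' - w‖ ^ 2 ≤ (√(2 / e * Ey)) ^ 2 := pow_le_pow_left₀ (norm_nonneg _) h3 2
      _ = _ := Real.sq_sqrt (by positivity)
  have hin : ∀ e : Alt m, ρ (vA ψ e) w' = w' := by
    intro e; rw [hw']; exact av_inv ρ (vA ψ) w e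
  have hcount : ∀ I : Finset (Fin R), t ≤ #I →
      4 * #(univ.filter fun J : Tup (R * 2) n => ¬ ∃ i ∈ I, inr ψ J i) ≤
      Fintype.card (Tup (R * 2) n) := by
    intro I hI
    refine count ψ (by omega) (by omega) hm I (htm.trans ?_)
    have e1 : (t : ℝ) ≤ #I := by exact_mod_cast hI
    have e2 : (4 : ℝ) ≤ m := by exact_mod_cast hm
    apply mul_le_mul_of_nonneg_right e1
    apply mul_nonneg <;> linarith
  have h4 := hcount _ hp
  have h5 := hcount _ hmi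
  have hz : 2 * #(univ.filter fun J : Tup (R * 2) n => Es ρ (ta J) χ w' ≠ 0) ≤
      Fintype.card (Tup (R * 2) n) := by
    have e1 : (univ.filter fun J : Tup (R * 2) n => Es ρ (ta J) χ w' ≠ 0) ⊆
        (univ.filter fun J : Tup (R * 2) n => ¬ ∃ i ∈ Ip i0 χ, inr ψ J i) ∪
        (univ.filter fun J : Tup (R * 2) n => ¬ ∃ i ∈ Im i0 χ, inr ψ J i) := by
      intro J hJ
      simp only [Finset.mem_filter, Finset.mem_univ, true_and, Finset.mem_union] at hJ ⊢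
      by_contra hcon
      push Not at hcon
      obtain ⟨h6, h7⟩ := hcon
      exact hJ (Es_zero ψ ρ w' hin i0 χ J h6 h7)
    have e2 := (Finset.card_le_card e1).trans (Finset.card_union_le _ _)
    omega
  have h6 := hole x c hc.le hgap hT ρ χ c0 hc0 hsc w' hz
  have h7 := En_cmp ρ x w w'
  rw [← hEx] at h7
  have h9 : ‖w'‖ ^ 2 ≤ 2 / c * (2 * Ex + 16 * k / e * Ey) := by
    have e1 : En ρ x w' ≤ 2 * Ex + 16 * k / e * Ey := by
      have e2 : 8 * (k : ℝ) * ‖w' - w‖ ^ 2 ≤ 8 * k * (2 / e * Ey) :=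
        mul_le_mul_of_nonneg_left h3' (by positivity)
      calc En ρ x w' ≤ 2 * Ex + 8 * k * ‖w' - w‖ ^ 2 := h7
        _ ≤ 2 * Ex + 8 * k * (2 / e * Ey) := by linarith
        _ = _ := by ring
    calc ‖w'‖ ^ 2 = 2 / c * (c / 2 * ‖w'‖ ^ 2) := by field_simp
      _ ≤ 2 / c * (2 * Ex + 16 * k / e * Ey) :=
        mul_le_mul_of_nonneg_left (h6.trans e1) (by positivity)
  have h10 : ‖w‖ ^ 2 ≤ 2 * ‖w'‖ ^ 2 + 2 * ‖w' - w‖ ^ 2 := by
    have e1 : ‖w‖ ≤ ‖w'‖ + ‖w' - w‖ := by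
      have : w = w' - (w' - w) := by abel
      calc ‖w‖ = ‖w' - (w' - w)‖ := by rw [← this]
        _ ≤ _ := norm_sub_le _ _
    nlinarith [sq_nonneg (‖w'‖ - ‖w' - w‖), norm_nonneg w]
  have h11 : ‖w‖ ^ 2 ≤ (8 / c + (64 * k / c + 4) / e) * (Ex + Ey) := by
    have e1 : 0 ≤ 8 / c * Ey := by positivity
    have e2 : 0 ≤ (64 * k / c + 4) / e * Ex := by positivity
    calc ‖w‖ ^ 2 ≤ 2 * ‖w'‖ ^ 2 + 2 * ‖w' - w‖ ^ 2 := h10
      _ ≤ 2 * (2 / c * (2 * Ex + 16 * k / e * Ey)) + 2 * (2 / e * Ey) := by linarith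
      _ = 8 / c * Ex + (64 * k / c + 4) / e * Ey := by ring
      _ ≤ _ := by linarith
  unfold c1
  rw [one_div, inv_mul_le_iff₀ (by positivity)]
  exact h11

end

end

end Pool.Agent.K1H7.LE
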