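import Pool.Agent.K1H7.LE.Bal

/-!
Vectors whose spectral component vanishes for half of the tuples of pairs are moved.
-/

set_option autoImplicit false

namespace Pool.Agent.K1H7.LE
open RC14 Pool.Agent.K1H7.EP Finset Equiv
open scoped InnerProductSpace ComplexConjugate

noncomputable section

variable {R n j : ℕ}

/-- the gap for real functions which need not have mean zero -/
lemma real_gap {k : ℕ} (x : Fin k → Alt n) (c : ℝ)
    (hgap : ∀ f : RC14.V j n, ∑ a, f a = 0 → c * ‖f‖ ^ 2 ≤ En (repA j n) x f)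
    (hT : 0 < Fintype.card (Tup j n)) (φ : Tup j n → ℝ) :
    c * (∑ J, φ J ^ 2 - (∑ J, φ J) ^ 2 / Fintype.card (Tup j n)) ≤
      ∑ i, ∑ J, (φ (mv ((x i : Alt n) : Perm (Fin n))⁻¹ J) - φ J) ^ 2 := by
  obtain ⟨T, hTd⟩ : ∃ T : ℝ, T = Fintype.card (Tup j n) := ⟨_, rfl⟩
  have hTp : 0 < T := by rw [hTd]; exact_mod_cast hT
  obtain ⟨μ, hμ⟩ : ∃ μ : ℝ, μ = (∑ J, φ J) / T := ⟨_, rfl⟩
  obtain ⟨f, hf⟩ : ∃ f : RC14.V j n, f = WithLp.toLp 2 fun J => ((φ J - μ : ℝ) : ℂ) := ⟨_, rfl⟩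
  have hfa : ∀ J, f J = ((φ J - μ : ℝ) : ℂ) := by intro J; rw [hf]
  have hcard : ∑ _J : Tup j n, μ = T * μ := by
    rw [Finset.sum_const, Finset.card_univ, nsmul_eq_mul, ← hTd]
  have hTμ : T * μ = ∑ J, φ J := by rw [hμ]; field_simp
  have hs : ∑ a, f a = 0 := by
    rw [Finset.sum_congr rfl fun J _ => hfa J, ← Complex.ofReal_sum, Finset.sum_sub_distrib,
      hcard, hTμ, sub_self, Complex.ofReal_zero]
  have h := hgap f hs
  have h1 : ‖f‖ ^ 2 = ∑ J, φ J ^ 2 - (∑ J, φ J) ^ 2 / Fintype.card (Tup j n) := by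
    rw [EuclideanSpace.norm_sq_eq, ← hTd]
    have e1 : ∀ J, ‖f J‖ ^ 2 = φ J ^ 2 - 2 * μ * φ J + μ * μ := by
      intro J
      rw [hfa, Complex.norm_real, Real.norm_eq_abs, sq_abs]; ring
    rw [Finset.sum_congr rfl fun J _ => e1 J, Finset.sum_add_distrib, Finset.sum_sub_distrib,
      ← Finset.mul_sum, ← Finset.mul_sum, hcard, ← hTμ]
    field_simp
    ring
  have h2 : En (repA j n) x f =
      ∑ i, ∑ J, (φ (mv ((x i : Alt n) : Perm (Fin n))⁻¹ J) - φ J) ^ 2 := by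
    unfold En
    refine Finset.sum_congr rfl fun i _ => ?_
    rw [EuclideanSpace.norm_sq_eq]
    refine Finset.sum_congr rfl fun J _ => ?_
    rw [PiLp.sub_apply, repA_apply, hfa, hfa, ← Complex.ofReal_sub, Complex.norm_real,
      Real.norm_eq_abs, sq_abs]
    ring
  rw [h1, h2] at h
  exact h

variable {V : Type*} [NormedAddCommGroup V] [InnerProductSpace ℂ V]

open Classical in
/-- the hole lemma -/
theorem hole {k : ℕ} (x : Fin k → Alt n) (c : ℝ) (hc : 0 ≤ c)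
    (hgap : ∀ f : RC14.V (R * 2) n, ∑ a, f a = 0 → c * ‖f‖ ^ 2 ≤ En (repA (R * 2) n) x f)
    (hT : 0 < Fintype.card (Tup (R * 2) n)) (ρ : Alt n →* (V ≃ₗᵢ[ℂ] V))
    (χ : AddChar (Ev R) ℂ) (c0 : ℝ) (hc0 : 0 < c0)
    (hsc : ∀ v : V, ∑ J : Tup (R * 2) n, ‖Es ρ (ta J) χ v‖ ^ 2 = c0 * ‖v‖ ^ 2) (v : V)
    (hz : 2 * #(univ.filter fun J : Tup (R * 2) n => Es ρ (ta J) χ v ≠ 0) ≤
      Fintype.card (Tup (R * 2) n)) :
    c / 2 * ‖v‖ ^ 2 ≤ En ρ x v := by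
  have h1 := real_gap x c hgap hT (fun J => ‖Es ρ (ta J) χ v‖)
  have hTp : (0 : ℝ) < Fintype.card (Tup (R * 2) n) := by exact_mod_cast hT
  have h2 : (∑ J : Tup (R * 2) n, ‖Es ρ (ta J) χ v‖) ^ 2 ≤
      (Fintype.card (Tup (R * 2) n) : ℝ) / 2 * ∑ J : Tup (R * 2) n, ‖Es ρ (ta J) χ v‖ ^ 2 := by
    have e1 : ∑ J : Tup (R * 2) n, ‖Es ρ (ta J) χ v‖ =
        ∑ J ∈ univ.filter (fun J : Tup (R * 2) n => Es ρ (ta J) χ v ≠ 0),
          1 * ‖Es ρ (ta J) χ v‖ := by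
      rw [Finset.sum_filter]
      refine Finset.sum_congr rfl fun J _ => ?_
      by_cases h : Es ρ (ta J) χ v = 0
      · rw [if_neg (by simpa using h), h, norm_zero]
      · rw [if_pos h, one_mul]
    rw [e1]
    refine (Finset.sum_mul_sq_le_sq_mul_sq _ _ _).trans ?_
    apply mul_le_mul
    · rw [one_pow, Finset.sum_const, nsmul_eq_mul, mul_one]
      have : ((2 * #(univ.filter fun J : Tup (R * 2) n => Es ρ (ta J) χ v ≠ 0) : ℕ) : ℝ) ≤
        Fintype.card (Tup (R * 2) n) := by exact_mod_cast hz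
      push_cast at this
      linarith
    · exact Finset.sum_le_sum_of_subset_of_nonneg (Finset.filter_subset _ _)
        fun _ _ _ => by positivity
    · exact Finset.sum_nonneg fun _ _ => by positivity
    · positivity
  have h3 : ∑ i, ∑ J : Tup (R * 2) n, (‖Es ρ (ta (mv ((x i : Alt n) : Perm (Fin n))⁻¹ J)) χ v‖ -
      ‖Es ρ (ta J) χ v‖) ^ 2 ≤ c0 * En ρ x v := by
    unfold En
    rw [Finset.mul_sum]
    refine Finset.sum_le_sum fun i _ => ?_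
    rw [← hsc]
    refine Finset.sum_le_sum fun J _ => ?_
    have e1 : ‖Es ρ (ta (mv ((x i : Alt n) : Perm (Fin n))⁻¹ J)) χ v‖ =
        ‖Es ρ (ta J) χ (ρ (x i) v)‖ := by
      have e2 := Es_equi ρ (mv ((x i : Alt n) : Perm (Fin n))⁻¹ J) χ (x i) v
      rw [← mv_mul, mul_inv_cancel, mv_one] at e2
      rw [e2, (ρ (x i)).norm_map]
    rw [e1, Es_sub, ← sq_abs]
    exact pow_le_pow_left₀ (abs_nonneg _) (abs_norm_sub_norm_le _ _) 2
  have h4 : c * (1 / 2 * (c0 * ‖v‖ ^ 2)) ≤ c0 * En ρ x v := by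
    refine le_trans ?_ (h1.trans h3)
    apply mul_le_mul_of_nonneg_left _ hc
    rw [hsc] at h2 ⊢
    have : (∑ J : Tup (R * 2) n, ‖Es ρ (ta J) χ v‖) ^ 2 / Fintype.card (Tup (R * 2) n) ≤
        1 / 2 * (c0 * ‖v‖ ^ 2) := by
      rw [div_le_iff₀ hTp]
      linarith
    linarith
  have h5 : c0 * (c / 2 * ‖v‖ ^ 2) ≤ c0 * En ρ x v := by linarith
  exact le_of_mul_le_mul_left h5 hc0

/-- vanishing of the spectral component -/
theorem Es_zero {m : ℕ} (ψ : Fin m ↪ Fin n) (ρ : Alt n →* (V ≃ₗᵢ[ℂ] V)) (v : V)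
    (hv : ∀ e : Alt m, ρ (vA ψ e) v = v) (i0 : Fin R) (χ : AddChar (Ev R) ℂ)
    (J : Tup (R * 2) n) (hp : ∃ i ∈ Ip i0 χ, ∀ b, jm J (i, b) ∈ Set.range ψ)
    (hm : ∃ i ∈ Im i0 χ, ∀ b, jm J (i, b) ∈ Set.range ψ) : Es ρ (ta J) χ v = 0 := by
  obtain ⟨i, hi, hi2⟩ := hp
  obtain ⟨j, hj, hj2⟩ := hm
  obtain ⟨e, he⟩ := ta_pe_mem ψ J i j hi2 hj2
  have h1 := Es_tau ρ (ta J) (ta_add J) χ (pe i j) v
  rw [← he, hv e, chi_neg i0 χ i j hi hj, neg_smul, one_smul] at h1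
  have h2 : (2 : ℂ) • Es ρ (ta J) χ v = 0 := by
    rw [two_smul]
    nth_rewrite 1 [h1]
    exact neg_add_cancel _
  exact (smul_eq_zero.1 h2).resolve_left two_ne_zero

end

end Pool.Agent.K1H7.LE
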